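import Pool.Agent.U226.HF.Weak

/-!
# Irreducible torsors: one relation of degree `d` makes the share `O (d / n)`
-/

set_option autoImplicit false
set_option linter.unusedSectionVars false

open Filter Topology MvPolynomial Finset

namespace Pool.Agent.U226.HF

section Gen

variable {F σ E : Type*} [Fintype σ] [Field F] [Field E] [Algebra F E]
  {T Γ : Set (σ → E)} {c : σ → E}

/-- the relations of degree at most `d` -/
def trunc (F : Type*) {σ E : Type*} [Fintype σ] [Field F] [Field E] [Algebra F E] (d : ℕ)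
    (f : σ → E) : Set (MvPolynomial σ F) := {b | b.totalDegree ≤ d ∧ aeval f b = 0}

/-- A point at which no new relation of degree at most `d` holds. -/
lemma numProd_ge {f : σ → E} (hf : f ∈ T) {d : ℕ} (h : trunc F d f ⊆ van F T) :
    numProd F (coord T) d ≤ numProd F f d := by
  let Ψ : prodSpan F (coord T) d →ₗ[F] prodSpan F f d :=
    LinearMap.codRestrict _
      ((LinearMap.proj (⟨f, hf⟩ : T) : (T → E) →ₗ[F] E) ∘ₗ (prodSpan F (coord T) d).subtype) (by
        rintro ⟨u, hu⟩
        obtain ⟨P, hP, rfl⟩ := mem_prodSpan.1 hu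
        exact mem_prodSpan.2 ⟨P, hP, (aeval_coord T P ⟨f, hf⟩).symm⟩)
  have hΨ : Function.Injective Ψ := by
    rw [← LinearMap.ker_eq_bot, LinearMap.ker_eq_bot']
    rintro ⟨u, hu⟩ hu0
    obtain ⟨P, hP, rfl⟩ := mem_prodSpan.1 hu
    have h4 : aeval (coord T) P ⟨f, hf⟩ = 0 := congrArg Subtype.val hu0
    rw [aeval_coord] at h4
    have h5 := h ⟨hP, h4⟩
    apply Subtype.ext
    funext g
    change aeval (coord T) P g = 0
    rw [aeval_coord]
    exact h5 g.1 g.2
  exact LinearMap.finrank_le_finrank_of_injective hΨ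

/-- A point at which a new relation of degree at most `d` holds. -/
lemma numProd_lt {f : σ → E} (hf : f ∈ T) {d : ℕ} {P : MvPolynomial σ F} (hd : P.totalDegree ≤ d)
    (hP : aeval f P = 0) (hP' : P ∉ van F T) : numProd F f d < numProd F (coord T) d := by
  let L : prodSpan F (coord T) d →ₗ[F] E :=
      ((LinearMap.proj (⟨f, hf⟩ : T) : (T → E) →ₗ[F] E) ∘ₗ (prodSpan F (coord T) d).subtype)
  have hr : LinearMap.range L = prodSpan F f d := by
    ext z
    rw [LinearMap.mem_range]
    constructor
    · rintro ⟨⟨u, hu⟩, rfl⟩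
      obtain ⟨Q, hQ, rfl⟩ := mem_prodSpan.1 hu
      exact mem_prodSpan.2 ⟨Q, hQ, (aeval_coord T Q ⟨f, hf⟩).symm⟩
    · intro hz
      obtain ⟨Q, hQ, rfl⟩ := mem_prodSpan.1 hz
      exact ⟨⟨aeval (coord T) Q, mem_prodSpan.2 ⟨Q, hQ, rfl⟩⟩, aeval_coord T Q ⟨f, hf⟩⟩
  have hk : 0 < Module.finrank F (LinearMap.ker L) := by
    apply Nat.pos_of_ne_zero
    intro h0
    have hb := Submodule.finrank_eq_zero.1 h0
    have hm : (⟨aeval (coord T) P, mem_prodSpan.2 ⟨P, hd, rfl⟩⟩ : prodSpan F (coord T) d) ∈
        LinearMap.ker L := by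
      rw [LinearMap.mem_ker]
      exact (aeval_coord T P ⟨f, hf⟩).trans hP
    rw [hb, Submodule.mem_bot] at hm
    apply hP'
    intro g hg
    have h1 : aeval (coord T) P = 0 := congrArg Subtype.val hm
    have h2 := congrFun h1 ⟨g, hg⟩
    rwa [aeval_coord] at h2
  have h3 := L.finrank_range_add_finrank_ker
  rw [hr] at h3
  rw [numProd, numProd]
  omega

lemma Homog.new_point (H : Homog F T Γ c) (hirr : (van F T).IsPrime) {d : ℕ}
    {P : MvPolynomial σ F} (hd : P.totalDegree ≤ d) (hP : aeval c P = 0) (hP' : P ∉ van F T)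
    (A : Finset (σ → E)) (hA : (A : Set (σ → E)) ⊆ Γ) :
    ∃ g ∈ Γ, ∀ a ∈ A, trunc F d g ≠ trunc F d a := by
  classical
  by_contra hcon
  push Not at hcon
  have hlt := numProd_lt (H.sub H.mem) hd hP hP'
  have h1 : ∀ a ∈ A, ∃ b ∈ trunc F d a, b ∉ van F T := by
    intro a ha
    by_contra hno
    push Not at hno
    have := numProd_ge (F := F) (H.sub (hA ha)) hno
    rw [H.num a (hA ha)] at this
    omega
  choose! b hb hb' using h1
  have hmem : ∏ a ∈ A, b a ∈ van F T := by
    refine H.dense _ fun g hg => ?_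
    obtain ⟨a, ha, hga⟩ := hcon g hg
    rw [map_prod]
    apply Finset.prod_eq_zero ha
    have h2 := hb a ha
    rw [← hga] at h2
    exact h2.2
  obtain ⟨a, ha, hba⟩ := (Ideal.IsPrime.prod_mem_iff).1 hmem
  exact hb' a ha hba

lemma Homog.exists_points (H : Homog F T Γ c) (hirr : (van F T).IsPrime) {d : ℕ}
    {P : MvPolynomial σ F} (hd : P.totalDegree ≤ d) (hP : aeval c P = 0) (hP' : P ∉ van F T)
    (r : ℕ) : ∃ f : Fin r → σ → E, (∀ i, f i ∈ Γ) ∧
      Function.Injective fun i => trunc F d (f i) := by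
  classical
  induction r with
  | zero => exact ⟨fun i => i.elim0, fun i => i.elim0, fun i => i.elim0⟩
  | succ r ih =>
    obtain ⟨f, hf, hinj⟩ := ih
    obtain ⟨g, hg, hgA⟩ := H.new_point hirr hd hP hP' (univ.image f) (by
      intro x hx
      obtain ⟨i, -, rfl⟩ := Finset.mem_image.1 hx
      exact hf i)
    refine ⟨Fin.cons g f, ?_, ?_⟩
    · intro i
      refine Fin.cases ?_ (fun i => ?_) i
      · exact hg
      · exact hf i
    · intro i j
      refine Fin.cases ?_ (fun i => ?_) i
      · refine Fin.cases (fun _ => rfl) (fun j h => ?_) j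
        exact absurd h (hgA _ (Finset.mem_image_of_mem _ (Finset.mem_univ j)))
      · refine Fin.cases (fun h => ?_) (fun j h => ?_) j
        · exact absurd h.symm (hgA _ (Finset.mem_image_of_mem _ (Finset.mem_univ i)))
        · exact congrArg Fin.succ (hinj h)

/-- **Many translates.** -/
lemma Homog.many (H : Homog F T Γ c) (hirr : (van F T).IsPrime) {d : ℕ}
    {P : MvPolynomial σ F} (hd : P.totalDegree ≤ d) (hP : aeval c P = 0) (hP' : P ∉ van F T)
    (r n : ℕ) : (r + 1) * numProd F c n ≤ numProd F (coord T) (n + r * d) := by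
  classical
  obtain ⟨f, hf, hinj⟩ := H.exists_points hirr hd hP hP' (r + 1)
  have h1 : ∀ i j : Fin (r + 1), ∃ a : MvPolynomial σ F, a.totalDegree ≤ (if i = j then 0 else d) ∧
      aeval (f i) a ≠ 0 ∧ (i ≠ j → aeval (f j) a = 0) := by
    intro i j
    by_cases hij : i = j
    · rw [if_pos hij]
      exact ⟨1, by simp, by rw [map_one]; exact one_ne_zero, fun h => absurd hij h⟩
    · rw [if_neg hij]
      have hne : trunc F d (f i) ≠ trunc F d (f j) := fun h => hij (hinj h)
      have h2 : (∃ a ∈ trunc F d (f j), a ∉ trunc F d (f i)) ∨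
          ∃ a ∈ trunc F d (f i), a ∉ trunc F d (f j) := by
        by_contra hcon
        push Not at hcon
        exact hne (Set.Subset.antisymm hcon.2 hcon.1)
      rcases h2 with ⟨a, ha, ha'⟩ | ⟨a, ha, ha'⟩
      · exact ⟨a, ha.1, fun h => ha' ⟨ha.1, h⟩, fun _ => ha.2⟩
      · obtain ⟨b, hb, hb1, hb2⟩ := swap (F := F) (f := f i) (g := f j) (d := d)
          (by rw [H.num _ (hf i), H.num _ (hf j)]) ha.1 ha.2 (fun h => ha' ⟨ha.1, h⟩)
        exact ⟨b, hb, hb2, fun _ => hb1⟩
  choose a ha1 ha2 ha3 using h1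
  let b : Fin (r + 1) → MvPolynomial σ F := fun i => ∏ j, a i j
  have hdeg : ∀ i, (b i).totalDegree ≤ r * d := by
    intro i
    refine (totalDegree_finsetProd _ _).trans ?_
    refine (Finset.sum_le_sum fun j _ => ha1 i j).trans ?_
    rw [← Finset.add_sum_erase _ _ (Finset.mem_univ i), if_pos rfl, zero_add]
    have h3 : ∀ j ∈ univ.erase i, (if i = j then 0 else d) ≤ d := fun j _ => by
      split_ifs
      · exact Nat.zero_le _
      · exact le_rfl
    refine (Finset.sum_le_card_nsmul _ _ _ h3).trans ?_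
    rw [Finset.card_erase_of_mem (Finset.mem_univ i), Finset.card_univ, Fintype.card_fin,
      smul_eq_mul, Nat.add_sub_cancel]
  have h := sum_le (F := F) (T := T) (fun i => ⟨f i, H.sub (hf i)⟩) b (e := r * d) hdeg
    (fun i j hij => by
      rw [map_prod]
      exact Finset.prod_eq_zero (Finset.mem_univ j) (ha3 i j hij))
    (fun i => by
      rw [map_prod]
      exact Finset.prod_ne_zero_iff.2 fun j _ => ha2 i j) n
  refine le_trans (le_of_eq ?_) h
  rw [Finset.sum_congr rfl fun i _ => H.num _ (hf i) n, Finset.sum_const, Finset.card_univ,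
    Fintype.card_fin, smul_eq_mul]

/-- The explicit bound. -/
lemma Homog.small (H : Homog F T Γ c) (hirr : (van F T).IsPrime) {d : ℕ}
    {P : MvPolynomial σ F} (hd : P.totalDegree ≤ d) (hP : aeval c P = 0) (hP' : P ∉ van F T)
    (n : ℕ) : n * numProd F c n ≤ 3 * Fintype.card σ * d * numProd F (coord T) n := by
  set M := Fintype.card σ with hM
  have key := fun r => H.many hirr hd hP hP' r n
  have hp0 : 0 < numProd F c n := numProd_pos c n
  have hgrow := fun e => numProd_add_real (F := F) (coord T) n e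
  rcases Nat.eq_zero_or_pos (M * d) with h0 | h0
  · exfalso
    -- all `m (n + r d)` are at most `m n`
    have h1 : ∀ r : ℕ, numProd F (coord T) (n + r * d) ≤ numProd F (coord T) n := by
      intro r
      rcases Nat.mul_eq_zero.1 h0 with h | h
      · have h2 := hgrow (r * d)
        rw [← hM, h] at h2
        simp only [Nat.cast_zero, zero_div, add_zero, one_pow, one_mul] at h2
        exact_mod_cast h2
      · rw [h, mul_zero, add_zero]
    have h2 := (key (numProd F (coord T) n)).trans (h1 _)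
    nlinarith
  · set r := n / (M * d) with hr
    have h1 := key r
    have hrd : (r * d) * M ≤ n := by
      have := Nat.div_mul_le_self n (M * d)
      calc r * d * M = n / (M * d) * (M * d) := by rw [hr]; ring
        _ ≤ n := this
    have h2 : (numProd F (coord T) (n + r * d) : ℝ) ≤ 3 * numProd F (coord T) n := by
      refine (hgrow (r * d)).trans ?_
      apply mul_le_mul_of_nonneg_right _ (Nat.cast_nonneg _)
      have h3 : (1 + (M : ℝ) / (n + 1)) ≤ Real.exp ((M : ℝ) / (n + 1)) := by
        rw [add_comm]; exact Real.add_one_le_exp _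
      have h4 : (1 + (M : ℝ) / (n + 1)) ^ (r * d) ≤ Real.exp ((M : ℝ) / (n + 1)) ^ (r * d) :=
        pow_le_pow_left₀ (by positivity) h3 _
      refine h4.trans ?_
      rw [← Real.exp_nat_mul]
      have h5 : ((r * d : ℕ) : ℝ) * ((M : ℝ) / (n + 1)) ≤ 1 := by
        have h6 : ((r * d : ℕ) : ℝ) * M ≤ n := by exact_mod_cast hrd
        rw [mul_div_assoc', div_le_one (by positivity)]
        linarith
      calc Real.exp (((r * d : ℕ) : ℝ) * ((M : ℝ) / (n + 1))) ≤ Real.exp 1 := Real.exp_le_exp.2 h5
        _ ≤ 3 := by linarith [Real.exp_one_lt_d9]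
    have h3 : numProd F (coord T) (n + r * d) ≤ 3 * numProd F (coord T) n := by exact_mod_cast h2
    have h4 : n ≤ M * d * (r + 1) := by
      have := Nat.lt_mul_div_succ n h0
      rw [← hr] at this
      omega
    calc n * numProd F c n ≤ M * d * (r + 1) * numProd F c n := Nat.mul_le_mul_right _ h4
      _ = M * d * ((r + 1) * numProd F c n) := by ring
      _ ≤ M * d * (3 * numProd F (coord T) n) := Nat.mul_le_mul_left _ (h1.trans h3)
      _ = _ := by ring

end Gen

variable {N : ℕ} {S : Set (TensorPair Qbar N)} {c : Fin N × Fin N → ℂ}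

/-- **Irreducible torsors.** -/
theorem conn_law (hc : IsPeriodMatrix S c) (hirr : (torsorIdeal S).IsPrime) {d : ℕ}
    {P : MvPolynomial (Fin N × Fin N) Qbar} (hd : P.totalDegree ≤ d) (hP : aeval c P = 0)
    (hP' : ¬ Holds S P) (n : ℕ) :
    (∀ r, (r + 1) * numProd Qbar c n ≤ numProd Qbar (entries (torsor S ℂ)) (n + r * d)) ∧
      n * numProd Qbar c n ≤ 3 * N ^ 2 * d * numProd Qbar (entries (torsor S ℂ)) n := by
  have H := homog hc.mem
  refine ⟨fun r => H.many hirr hd hP hP' r n, ?_⟩
  have h := H.small hirr hd hP hP' n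
  rw [Fintype.card_prod, Fintype.card_fin, ← sq] at h
  exact h

/-- The weak form implies the strong form for irreducible torsors. -/
theorem weak_conn (hc : IsPeriodMatrix S c) (hirr : (torsorIdeal S).IsPrime) :
    WeakPeriodConjecture S c ↔ ∀ n, numProd Qbar c n = numProd Qbar (entries (torsor S ℂ)) n := by
  obtain ⟨h1, h2, h3⟩ := weak_law hc
  constructor
  · intro hw n
    obtain ⟨K, hK1, hK2, hK3, -⟩ := h2 hw
    have h4 : (torsorIdeal S).minimalPrimes = {torsorIdeal S} := Ideal.minimalPrimes_eq_subsingleton_self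
    rw [h4, Set.encard_singleton] at hK2
    have h5 : K = 1 := by exact_mod_cast hK2.symm
    have h6 := hK3 n
    rw [h5, one_mul] at h6
    exact le_antisymm (numProd_le hc.mem n) h6
  · intro h
    exact h1.2 ⟨1, fun n => by rw [h n, one_mul]⟩

end Pool.Agent.U226.HF
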