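import Pool.Agent.U226.HF.Grow2

/-!
# Points, polynomials and independent products
-/

set_option autoImplicit false
set_option linter.unusedSectionVars false

open Finset MvPolynomial

namespace Pool.Agent.U226.HF

section Poly

variable {F σ B : Type*} [Fintype σ] [Field F] [CommRing B] [Algebra F B]

lemma aeval_monomial' (x : σ → B) (m : σ →₀ ℕ) (r : F) :
    aeval x (monomial m r) = r • prodPow x m := by
  rw [aeval_monomial, Finsupp.prod_fintype _ _ (fun i => pow_zero _), Algebra.smul_def]; rfl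

lemma mem_prodSpan {x : σ → B} {n : ℕ} {z : B} :
    z ∈ prodSpan F x n ↔ ∃ P : MvPolynomial σ F, P.totalDegree ≤ n ∧ aeval x P = z := by
  constructor
  · intro hz
    refine Submodule.span_induction (p := fun z _ => ∃ P : MvPolynomial σ F,
      P.totalDegree ≤ n ∧ aeval x P = z) ?_ ?_ ?_ ?_ hz
    · rintro z ⟨m, hm, rfl⟩
      refine ⟨monomial (Finsupp.equivFunOnFinite.symm m) 1, ?_, ?_⟩
      · refine (totalDegree_monomial_le _ _).trans ?_
        rw [Finsupp.sum_fintype _ _ (fun _ => rfl)]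
        exact hm
      · rw [aeval_monomial', one_smul]; rfl
    · exact ⟨0, by simp, map_zero _⟩
    · rintro a b _ _ ⟨P, hP, rfl⟩ ⟨Q, hQ, rfl⟩
      exact ⟨P + Q, (totalDegree_add _ _).trans (max_le hP hQ), map_add _ _ _⟩
    · rintro r a _ ⟨P, hP, rfl⟩
      exact ⟨r • P, (totalDegree_smul_le _ _).trans hP, map_smul _ _ _⟩
  · rintro ⟨P, hP, rfl⟩
    rw [P.as_sum, map_sum]
    refine Submodule.sum_mem _ fun m hm => ?_
    rw [aeval_monomial']
    apply Submodule.smul_mem
    apply prodPow_mem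
    have h1 := (le_totalDegree hm).trans hP
    rwa [Finsupp.sum_fintype _ _ (fun _ => rfl)] at h1

end Poly

section Pts

variable {F σ E : Type*} [Fintype σ] [Field F] [Field E] [Algebra F E]

/-- The coordinate functions on a set of points. -/
def coord (T : Set (σ → E)) (i : σ) : T → E := fun f => f.1 i

lemma aeval_coord (T : Set (σ → E)) (P : MvPolynomial σ F) (f : T) :
    aeval (coord T) P f = aeval f.1 P := by
  have h : (Pi.evalAlgHom F (fun _ : T => E) f).comp (aeval (coord T)) =
      (aeval f.1 : MvPolynomial σ F →ₐ[F] E) := by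
    apply MvPolynomial.algHom_ext
    intro i
    rw [AlgHom.comp_apply, aeval_X, aeval_X]; rfl
  exact DFunLike.congr_fun h P

lemma swap {f g : σ → E} {d : ℕ} (h : numProd F f d = numProd F g d) {a : MvPolynomial σ F}
    (ha : a.totalDegree ≤ d) (hf : aeval f a = 0) (hg : aeval g a ≠ 0) :
    ∃ b : MvPolynomial σ F, b.totalDegree ≤ d ∧ aeval g b = 0 ∧ aeval f b ≠ 0 := by
  by_contra hcon
  push Not at hcon
  let V := restrictTotalDegree σ F d
  let φ : (σ → E) → (V →ₗ[F] E) := fun f => (aeval f).toLinearMap ∘ₗ V.subtype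
  have hr : ∀ f : σ → E, LinearMap.range (φ f) = prodSpan F f d := by
    intro f
    ext z
    rw [mem_prodSpan, LinearMap.mem_range]
    constructor
    · rintro ⟨P, rfl⟩
      exact ⟨P, (mem_restrictTotalDegree σ d P.1).1 P.2, rfl⟩
    · rintro ⟨P, hP, rfl⟩
      exact ⟨⟨P, (mem_restrictTotalDegree σ d P).2 hP⟩, rfl⟩
  have h1 := (φ f).finrank_range_add_finrank_ker
  have h2 := (φ g).finrank_range_add_finrank_ker
  rw [hr] at h1 h2
  have h3 : Module.finrank F (LinearMap.ker (φ g)) = Module.finrank F (LinearMap.ker (φ f)) := by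
    rw [numProd, numProd] at h
    omega
  have hle : LinearMap.ker (φ g) ≤ LinearMap.ker (φ f) := by
    intro P hP
    exact hcon P.1 ((mem_restrictTotalDegree σ d P.1).1 P.2) hP
  have heq := Submodule.eq_of_le_of_finrank_eq hle h3
  have hmem : (⟨a, (mem_restrictTotalDegree σ d a).2 ha⟩ : V) ∈ LinearMap.ker (φ f) := hf
  rw [← heq] at hmem
  exact hg hmem

/-- Points with separating polynomials. -/
lemma sum_le {ι : Type*} [Fintype ι] [DecidableEq ι] {T : Set (σ → E)} (f : ι → T)
    (b : ι → MvPolynomial σ F) {e : ℕ} (hb : ∀ i, (b i).totalDegree ≤ e)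
    (h0 : ∀ i j, i ≠ j → aeval (f j).1 (b i) = 0) (h1 : ∀ i, aeval (f i).1 (b i) ≠ 0) (n : ℕ) :
    ∑ i, numProd F (f i).1 n ≤ numProd F (coord T) (n + e) := by
  let L : (T → E) →ₗ[F] (ι → E) := LinearMap.funLeft F E f
  let Φ : (∀ i, prodSpan F (f i).1 n) →ₗ[F] (ι → E) :=
    LinearMap.pi fun i => (LinearMap.mulLeft F (aeval (f i).1 (b i))) ∘ₗ
      (prodSpan F (f i).1 n).subtype ∘ₗ LinearMap.proj i
  have hΦ : Function.Injective Φ := by
    rw [← LinearMap.ker_eq_bot, LinearMap.ker_eq_bot']
    intro u hu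
    funext i
    have h := congrFun hu i
    have h2 : aeval (f i).1 (b i) * (u i : E) = 0 := h
    exact Subtype.ext ((mul_eq_zero.1 h2).resolve_left (h1 i))
  have hle : LinearMap.range Φ ≤ (prodSpan F (coord T) (n + e)).map L := by
    rintro _ ⟨u, rfl⟩
    choose P hP using fun i => mem_prodSpan.1 (u i).2
    let Q : MvPolynomial σ F := ∑ i, b i * P i
    have hQ : Q.totalDegree ≤ n + e := by
      refine totalDegree_finsetSum_le fun i _ => ?_
      refine (totalDegree_mul _ _).trans ?_
      have := hb i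
      have := (hP i).1
      omega
    refine ⟨aeval (coord T) Q, mem_prodSpan.2 ⟨Q, hQ, rfl⟩, ?_⟩
    funext j
    have e1 : L (aeval (coord T) Q) j = aeval (coord T) Q (f j) := rfl
    have e2 : Φ u j = aeval (f j).1 (b j) * (u j : E) := rfl
    rw [e1, e2, aeval_coord, map_sum, Finset.sum_eq_single j]
    · rw [map_mul, (hP j).2]
    · intro i _ hij
      rw [map_mul, h0 i j hij, zero_mul]
    · intro h; exact absurd (Finset.mem_univ _) h
  have h2 : Module.finrank F (∀ i, prodSpan F (f i).1 n) = ∑ i, numProd F (f i).1 n :=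
    Module.finrank_pi_fintype F
  rw [← h2, ← LinearMap.finrank_range_of_inj hΦ]
  exact (Submodule.finrank_mono hle).trans (Submodule.finrank_map_le _ _)

/-- A set of points which separates the polynomials on `T`. -/
lemma le_sum {ι : Type*} [Fintype ι] {T : Set (σ → E)} (f : ι → T)
    (h : ∀ P : MvPolynomial σ F, (∀ i, aeval (f i).1 P = 0) → ∀ g ∈ T, aeval g P = 0) (n : ℕ) :
    numProd F (coord T) n ≤ ∑ i, numProd F (f i).1 n := by
  have h2 : Module.finrank F (∀ i, prodSpan F (f i).1 n) = ∑ i, numProd F (f i).1 n :=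
    Module.finrank_pi_fintype F
  let Ψ : prodSpan F (coord T) n →ₗ[F] (∀ i, prodSpan F (f i).1 n) :=
    LinearMap.pi fun i => LinearMap.codRestrict _
      ((LinearMap.proj (f i) : (T → E) →ₗ[F] E) ∘ₗ (prodSpan F (coord T) n).subtype) (by
        rintro ⟨u, hu⟩
        obtain ⟨P, hP, rfl⟩ := mem_prodSpan.1 hu
        refine mem_prodSpan.2 ⟨P, hP, ?_⟩
        exact (aeval_coord T P (f i)).symm)
  have hΨ : Function.Injective Ψ := by
    rw [← LinearMap.ker_eq_bot, LinearMap.ker_eq_bot']
    rintro ⟨u, hu⟩ hu0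
    obtain ⟨P, hP, rfl⟩ := mem_prodSpan.1 hu
    apply Subtype.ext
    funext g
    change aeval (coord T) P g = 0
    rw [aeval_coord]
    refine h P (fun i => ?_) g.1 g.2
    have h3 := congrArg (fun v : (∀ i, prodSpan F (f i).1 n) => ((v i : prodSpan F (f i).1 n) : E))
      hu0
    have h4 : aeval (coord T) P (f i) = 0 := h3
    rwa [aeval_coord] at h4
  rw [← h2]
  exact LinearMap.finrank_le_finrank_of_injective hΨ

end Pts

end Pool.Agent.U226.HF
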