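import Mathlib

/-!
# Linearly independent products of at most `n` elements of a finite family
-/

set_option autoImplicit false

namespace Pool.Agent.U226.HF

/-- The product `∏ i, x i ^ m i`. -/
def prodPow {σ B : Type*} [Fintype σ] [CommRing B] (x : σ → B) (m : σ → ℕ) : B :=
  ∏ i, x i ^ m i

/-- The space spanned over `F` by the products of at most `n` elements of the family `x`. -/
def prodSpan (F : Type*) {σ B : Type*} [Fintype σ] [Field F] [CommRing B] [Algebra F B]
    (x : σ → B) (n : ℕ) : Submodule F B :=
  Submodule.span F {z | ∃ m : σ → ℕ, ∑ i, m i ≤ n ∧ z = prodPow x m}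

/-- The largest number of products of at most `n` elements of the family `x` which are linearly
independent over `F`. -/
noncomputable def numProd (F : Type*) {σ B : Type*} [Fintype σ] [Field F] [CommRing B] [Algebra F B]
    (x : σ → B) (n : ℕ) : ℕ :=
  Module.finrank F (prodSpan F x n)

end Pool.Agent.U226.HF
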