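import Pool.Agent.U226.HF.Std

/-!
# Growth of the number of independent products: standard monomials
-/

set_option autoImplicit false

open Finset

namespace Pool.Agent.U226.HF

section Ord

variable {F σ B : Type*} [Fintype σ] [LinearOrder σ] [Field F] [CommRing B] [Algebra F B]

/-- the exponents -/
def ex (m : DegLex (σ →₀ ℕ)) : σ → ℕ := (ofDegLex m : σ →₀ ℕ)

/-- the monomial with exponents `m` -/
def vm (x : σ → B) (m : DegLex (σ →₀ ℕ)) : B := prodPow x (ex m)

omit [Fintype σ] [LinearOrder σ] in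
lemma ex_add (m m' : DegLex (σ →₀ ℕ)) : ex (m + m') = ex m + ex m' := rfl

omit [LinearOrder σ] in
lemma vm_add (x : σ → B) (m m' : DegLex (σ →₀ ℕ)) : vm x (m + m') = vm x m * vm x m' := by
  rw [vm, ex_add, prodPow_add, vm, vm]

variable (F) in
/-- the standard monomials -/
def std (x : σ → B) : Set (DegLex (σ →₀ ℕ)) :=
  {m | vm x m ∉ Submodule.span F (vm x '' {m' | m' < m})}

variable {x : σ → B}

lemma std_of_add {m u : DegLex (σ →₀ ℕ)} (h : m + u ∈ std F x) : m ∈ std F x := by
  intro h1
  apply h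
  have h2 : ∀ b ∈ Submodule.span F (vm x '' {m' | m' < m}),
      b * vm x u ∈ Submodule.span F (vm x '' {m' | m' < m + u}) := by
    intro b hb
    induction hb using Submodule.span_induction with
    | mem b hb =>
      obtain ⟨m', hm', rfl⟩ := hb
      rw [← vm_add]
      exact Submodule.subset_span ⟨m' + u, by simpa using hm', rfl⟩
    | zero => rw [zero_mul]; exact Submodule.zero_mem _
    | add a b _ _ ha hb => rw [add_mul]; exact Submodule.add_mem _ ha hb
    | smul r a _ ha => rw [smul_mul_assoc]; exact Submodule.smul_mem _ _ ha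
  rw [vm_add]
  exact h2 _ h1

lemma std_linInd : LinearIndependent F fun m : std F x => vm x (m : DegLex (σ →₀ ℕ)) := by
  classical
  rw [linearIndependent_iff']
  intro s g hg
  by_contra hne
  push Not at hne
  obtain ⟨i, hi, hgi⟩ := hne
  let s' := s.filter fun m => g m ≠ 0
  have hs' : s'.Nonempty := ⟨i, Finset.mem_filter.2 ⟨hi, hgi⟩⟩
  obtain ⟨m, hm, hmax⟩ := s'.exists_max_image (fun m => (m : DegLex (σ →₀ ℕ))) hs'
  have hm1 := Finset.mem_filter.1 hm
  apply m.2
  rw [← Finset.add_sum_erase s _ hm1.1] at hg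
  have h1 : vm x (m : DegLex (σ →₀ ℕ)) =
      -(g m)⁻¹ • ∑ m' ∈ s.erase m, g m' • vm x (m' : DegLex (σ →₀ ℕ)) := by
    have h2 := eq_neg_of_add_eq_zero_left hg
    rw [neg_smul, ← smul_neg, ← h2, smul_smul, inv_mul_cancel₀ hm1.2, one_smul]
  rw [h1]
  apply Submodule.smul_mem
  apply Submodule.sum_mem
  intro m' hm'
  by_cases h0 : g m' = 0
  · rw [h0, zero_smul]; exact Submodule.zero_mem _
  · apply Submodule.smul_mem
    apply Submodule.subset_span
    refine ⟨m', ?_, rfl⟩
    have hle := hmax m' (Finset.mem_filter.2 ⟨Finset.mem_of_mem_erase hm', h0⟩)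
    exact lt_of_le_of_ne hle fun h => Finset.ne_of_mem_erase hm' (Subtype.ext h)

lemma vm_mem_std (m : DegLex (σ →₀ ℕ)) :
    vm x m ∈ Submodule.span F (vm x '' {m' | m' ∈ std F x ∧ m' ≤ m}) := by
  induction m using WellFoundedLT.induction with
  | ind m ih =>
    by_cases hm : m ∈ std F x
    · exact Submodule.subset_span ⟨m, ⟨hm, le_rfl⟩, rfl⟩
    · have h1 : vm x m ∈ Submodule.span F (vm x '' {m' | m' < m}) := not_not.1 hm
      refine Submodule.span_le.2 ?_ h1
      rintro _ ⟨m', hm', rfl⟩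
      refine Submodule.span_mono ?_ (ih m' hm')
      exact Set.image_mono fun m'' h => ⟨h.1, h.2.trans (le_of_lt hm')⟩

/-- the degree -/
def dg (m : DegLex (σ →₀ ℕ)) : ℕ := ∑ i, ex m i

omit [LinearOrder σ] in
lemma dg_eq (m : DegLex (σ →₀ ℕ)) : dg m = (ofDegLex m : σ →₀ ℕ).degree := by
  rw [dg, Finsupp.degree_eq_sum]; rfl

lemma dg_mono {m m' : DegLex (σ →₀ ℕ)} (h : m ≤ m') : dg m ≤ dg m' := by
  rw [dg_eq, dg_eq]
  exact Finsupp.DegLex.monotone_degree h

lemma prodSpan_eq (n : ℕ) :
    prodSpan F x n = Submodule.span F (vm x '' {m | m ∈ std F x ∧ dg m ≤ n}) := by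
  apply le_antisymm
  · refine Submodule.span_le.2 ?_
    rintro z ⟨m, hm, rfl⟩
    let m₀ : DegLex (σ →₀ ℕ) := toDegLex (Finsupp.equivFunOnFinite.symm m)
    have h1 : prodPow x m = vm x m₀ := rfl
    have h2 : dg m₀ ≤ n := hm
    rw [h1]
    refine Submodule.span_mono (Set.image_mono ?_) (vm_mem_std m₀)
    exact fun m' h => ⟨h.1, (dg_mono h.2).trans h2⟩
  · refine Submodule.span_le.2 ?_
    rintro _ ⟨m, hm, rfl⟩
    exact prodPow_mem hm.2

omit [LinearOrder σ] in
lemma finite_dg (n : ℕ) : {m : DegLex (σ →₀ ℕ) | dg m ≤ n}.Finite := by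
  have h1 : {m : σ → ℕ | ∑ i, m i ≤ n}.Finite := by
    refine (Set.Finite.pi (t := fun _ : σ => Set.Iic n) fun _ => Set.finite_Iic n).subset ?_
    intro m hm i _
    exact (Finset.single_le_sum (f := m) (fun j _ => Nat.zero_le _) (Finset.mem_univ i)).trans hm
  refine Set.Finite.of_finite_image (f := fun m : DegLex (σ →₀ ℕ) => ex m)
    (h1.subset ?_) ?_
  · rintro _ ⟨m, hm, rfl⟩; exact hm
  · intro a _ b _ h
    exact ofDegLex_injective (DFunLike.coe_injective h)

lemma finrank_image {ι : Type*} (v : ι → B) (P Q : Set ι) (hPQ : P ⊆ Q) (hP : P.Finite)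
    (hli : LinearIndependent F fun m : Q => v m) :
    Module.finrank F (Submodule.span F (v '' P)) = P.ncard := by
  classical
  have h2 : Fintype P := hP.fintype
  have hli' : LinearIndependent F fun m : P => v m :=
    hli.comp (Set.inclusion hPQ) (Set.inclusion_injective hPQ)
  have h1 : (v '' P) = Set.range fun m : P => v m := Set.image_eq_range _ _
  rw [h1, finrank_span_eq_card hli', Set.ncard_eq_toFinset_card', Set.toFinset_card]

/-- `numProd` counts the standard monomials. -/
lemma numProd_eq (n : ℕ) :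
    numProd F x n = (std F x ∩ {m | dg m ≤ n}).ncard := by
  have h : prodSpan F x n = Submodule.span F (vm x '' (std F x ∩ {m | dg m ≤ n})) :=
    prodSpan_eq n
  rw [numProd, h]
  exact finrank_image (vm x) _ (std F x) Set.inter_subset_left
    ((finite_dg n).subset Set.inter_subset_right) std_linInd

end Ord

end Pool.Agent.U226.HF
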