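import Pool.Agent.U226.HF.Grow

/-!
# Growth of the number of independent products: double counting
-/

set_option autoImplicit false
set_option linter.unusedSectionVars false

open Finset

namespace Pool.Agent.U226.HF

section Ord

variable {F σ B : Type*} [Fintype σ] [LinearOrder σ] [Field F] [CommRing B] [Algebra F B]
variable {x : σ → B}

/-- the `i`-th variable -/
noncomputable def one (i : σ) : DegLex (σ →₀ ℕ) := toDegLex (Finsupp.single i 1)

lemma ex_one_same (i : σ) : ex (one i) i = 1 := Finsupp.single_eq_same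

lemma ex_one_ne {i j : σ} (h : j ≠ i) : ex (one i) j = 0 := Finsupp.single_eq_of_ne h

lemma dg_add (m m' : DegLex (σ →₀ ℕ)) : dg (m + m') = dg m + dg m' := by
  simp only [dg, ex_add, Pi.add_apply, Finset.sum_add_distrib]

lemma dg_one (i : σ) : dg (one i) = 1 := by
  rw [dg, Finset.sum_eq_single i]
  · exact ex_one_same i
  · intro j _ hj; exact ex_one_ne hj
  · intro h; exact absurd (Finset.mem_univ _) h

lemma ex_inj {m m' : DegLex (σ →₀ ℕ)} (h : ex m = ex m') : m = m' :=
  ofDegLex_injective (DFunLike.coe_injective h)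

/-- subtract the `i`-th variable -/
lemma exists_sub {m : DegLex (σ →₀ ℕ)} {i : σ} (h : ex m i ≠ 0) : ∃ m', m = m' + one i := by
  refine ⟨toDegLex (Finsupp.equivFunOnFinite.symm (ex m - Pi.single i 1)), ex_inj ?_⟩
  funext j
  have h1 : ex (toDegLex (Finsupp.equivFunOnFinite.symm (ex m - Pi.single i 1))) j =
      ex m j - (Pi.single i 1 : σ → ℕ) j := rfl
  rw [ex_add, Pi.add_apply, h1]
  rcases eq_or_ne j i with rfl | hj
  · rw [ex_one_same, Pi.single_eq_same]; omega
  · rw [ex_one_ne hj, Pi.single_eq_of_ne hj]; omega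

variable (F x) in
/-- the standard monomials of degree `n` -/
noncomputable def lev (n : ℕ) : Finset (DegLex (σ →₀ ℕ)) :=
  ((finite_dg (σ := σ) n).subset
    (show std F x ∩ {m | dg m = n} ⊆ {m | dg m ≤ n} from fun _ h => le_of_eq h.2)).toFinset

lemma mem_lev {n : ℕ} {m : DegLex (σ →₀ ℕ)} : m ∈ lev F x n ↔ m ∈ std F x ∧ dg m = n := by
  rw [lev, Set.Finite.mem_toFinset]; rfl

lemma lev_step (n : ℕ) : (n + 1) * (lev F x (n + 1)).card ≤
    (n + Fintype.card σ) * (lev F x n).card := by
  classical
  have h1 : (n + 1) * (lev F x (n + 1)).card = ∑ m ∈ lev F x (n + 1), ∑ i, ex m i := by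
    have : ∀ m ∈ lev F x (n + 1), ∑ i, ex m i = n + 1 := fun m hm => (mem_lev.1 hm).2
    rw [Finset.sum_congr rfl this, Finset.sum_const, smul_eq_mul, mul_comm]
  have h2 : (n + Fintype.card σ) * (lev F x n).card = ∑ m ∈ lev F x n, ∑ i, (ex m i + 1) := by
    have : ∀ m ∈ lev F x n, ∑ i, (ex m i + 1) = n + Fintype.card σ := by
      intro m hm
      rw [Finset.sum_add_distrib, Finset.sum_const, Finset.card_univ, smul_eq_mul, mul_one]
      rw [show ∑ i, ex m i = n from (mem_lev.1 hm).2]
    rw [Finset.sum_congr rfl this, Finset.sum_const, smul_eq_mul, mul_comm]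
  rw [h1, h2, Finset.sum_comm, Finset.sum_comm (s := lev F x n)]
  refine Finset.sum_le_sum fun i _ => ?_
  rw [← Finset.sum_filter_ne_zero]
  have hsub : (lev F x (n + 1)).filter (fun m => ex m i ≠ 0) ⊆
      (lev F x n).image fun m => m + one i := by
    intro m hm
    obtain ⟨hm, hi⟩ := Finset.mem_filter.1 hm
    obtain ⟨m', rfl⟩ := exists_sub hi
    obtain ⟨ha, hb⟩ := mem_lev.1 hm
    rw [dg_add, dg_one] at hb
    exact Finset.mem_image.2 ⟨m', mem_lev.2 ⟨std_of_add ha, by omega⟩, rfl⟩
  refine (Finset.sum_le_sum_of_subset hsub).trans ?_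
  rw [Finset.sum_image (fun a _ b _ h => add_right_cancel h)]
  refine Finset.sum_le_sum fun m _ => ?_
  rw [ex_add, Pi.add_apply, ex_one_same]

lemma numProd_sum (n : ℕ) : numProd F x n = ∑ j ∈ range (n + 1), (lev F x j).card := by
  classical
  have h : (std F x ∩ {m | dg m ≤ n}) = ((range (n + 1)).biUnion (lev F x) :
      Finset (DegLex (σ →₀ ℕ))) := by
    ext m
    rw [Finset.mem_coe, Finset.mem_biUnion]
    constructor
    · rintro ⟨h1, h2⟩
      exact ⟨dg m, Finset.mem_range.2 (Nat.lt_succ_of_le h2), mem_lev.2 ⟨h1, rfl⟩⟩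
    · rintro ⟨j, hj, hm⟩
      obtain ⟨h1, h2⟩ := mem_lev.1 hm
      exact ⟨h1, by rw [Set.mem_ofPred_eq, h2]; exact Nat.lt_succ_iff.1 (Finset.mem_range.1 hj)⟩
  rw [numProd_eq, h, Set.ncard_coe_finset, Finset.card_biUnion]
  intro i _ j _ hij
  rw [Function.onFun, Finset.disjoint_left]
  intro m h1 h2
  exact hij ((mem_lev.1 h1).2.symm.trans (mem_lev.1 h2).2)

lemma lev_le (n : ℕ) : (n + 1) * (lev F x (n + 1)).card ≤ Fintype.card σ * numProd F x n := by
  induction n with
  | zero =>
    have h := lev_step (F := F) (x := x) 0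
    rw [numProd_sum]
    simpa using h
  | succ n ih =>
    have h := lev_step (F := F) (x := x) (n + 1)
    have h2 : numProd F x (n + 1) = numProd F x n + (lev F x (n + 1)).card := by
      rw [numProd_sum, numProd_sum, Finset.sum_range_succ]
    calc (n + 1 + 1) * (lev F x (n + 1 + 1)).card
        ≤ (n + 1 + Fintype.card σ) * (lev F x (n + 1)).card := h
      _ = (n + 1) * (lev F x (n + 1)).card + Fintype.card σ * (lev F x (n + 1)).card := by ring
      _ ≤ Fintype.card σ * numProd F x n + Fintype.card σ * (lev F x (n + 1)).card :=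
        Nat.add_le_add_right ih _
      _ = Fintype.card σ * numProd F x (n + 1) := by rw [h2]; ring

end Ord

/-- **Growth.** -/
theorem numProd_succ {F σ B : Type*} [Fintype σ] [Field F] [CommRing B] [Algebra F B] (x : σ → B)
    (n : ℕ) : (n + 1) * numProd F x (n + 1) ≤ (n + 1 + Fintype.card σ) * numProd F x n := by
  classical
  letI : LinearOrder σ := LinearOrder.lift' (Fintype.equivFin σ) (Fintype.equivFin σ).injective
  have h2 : numProd F x (n + 1) = numProd F x n + (lev F x (n + 1)).card := by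
    rw [numProd_sum, numProd_sum, Finset.sum_range_succ]
  have h3 := lev_le (F := F) (x := x) n
  rw [h2]
  calc (n + 1) * (numProd F x n + (lev F x (n + 1)).card)
      = (n + 1) * numProd F x n + (n + 1) * (lev F x (n + 1)).card := by ring
    _ ≤ (n + 1) * numProd F x n + Fintype.card σ * numProd F x n := Nat.add_le_add_left h3 _
    _ = _ := by ring

end Pool.Agent.U226.HF
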