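import Pool.Agent.U226.HF.Core

/-!
# The index law for a point of a homogeneous set
-/

set_option autoImplicit false
set_option linter.unusedSectionVars false

open Finset MvPolynomial Filter Topology

open scoped ENNReal

namespace Pool.Agent.U226.HF

section Grow

variable {F σ B : Type*} [Fintype σ] [Field F] [CommRing B] [Algebra F B] (x : σ → B)

lemma numProd_succ_real (k : ℕ) : (numProd F x (k + 1) : ℝ) ≤
    (1 + Fintype.card σ / (k + 1)) * numProd F x k := by
  have h := numProd_succ (F := F) x k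
  have h1 : ((k : ℝ) + 1) * numProd F x (k + 1) ≤ (k + 1 + Fintype.card σ) * numProd F x k := by
    exact_mod_cast h
  have h2 : (0 : ℝ) < k + 1 := by positivity
  rw [show (1 + (Fintype.card σ : ℝ) / (k + 1)) * numProd F x k =
    ((k + 1 + Fintype.card σ) * numProd F x k) / (k + 1) by field_simp]
  rw [le_div_iff₀ h2]
  linarith

lemma numProd_add_real (n e : ℕ) : (numProd F x (n + e) : ℝ) ≤
    (1 + Fintype.card σ / (n + 1)) ^ e * numProd F x n := by
  induction e with
  | zero => simp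
  | succ e ih =>
    have h := numProd_succ_real (F := F) x (n + e)
    have h1 : (1 : ℝ) + Fintype.card σ / (((n + e : ℕ) : ℝ) + 1) ≤
        1 + Fintype.card σ / (n + 1) := by
      have : (Fintype.card σ : ℝ) / (((n + e : ℕ) : ℝ) + 1) ≤ Fintype.card σ / (n + 1) := by
        apply div_le_div_of_nonneg_left (by positivity) (by positivity)
        push_cast
        linarith [(Nat.cast_nonneg e : (0 : ℝ) ≤ e)]
      linarith
    calc (numProd F x (n + (e + 1)) : ℝ) ≤ _ := h
      _ ≤ (1 + Fintype.card σ / (n + 1)) *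
          ((1 + Fintype.card σ / (n + 1)) ^ e * numProd F x n) := by
        apply mul_le_mul h1 ih (by positivity) (by positivity)
      _ = _ := by ring

lemma numProd_pos [Nontrivial B] (n : ℕ) : 0 < numProd F x n := by
  rw [numProd, Module.finrank_pos_iff]
  exact ⟨⟨⟨1, one_mem n⟩, 0, fun h => one_ne_zero (congrArg Subtype.val h)⟩⟩

end Grow

variable {F σ E : Type*} [Fintype σ] [Field F] [Field E] [Algebra F E]

variable (F) in
/-- The polynomials with coefficients in `F` which vanish at the points of `T`. -/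
def van (T : Set (σ → E)) : Ideal (MvPolynomial σ F) where
  carrier := {P | ∀ f ∈ T, aeval f P = 0}
  zero_mem' := fun f _ => map_zero _
  add_mem' := fun ha hb f hf => by rw [map_add, ha f hf, hb f hf, add_zero]
  smul_mem' := fun r P hP f hf => by rw [smul_eq_mul, map_mul, hP f hf, mul_zero]

lemma mem_van {T : Set (σ → E)} {P : MvPolynomial σ F} : P ∈ van F T ↔ ∀ f ∈ T, aeval f P = 0 :=
  Iff.rfl

lemma mem_van_one {c : σ → E} {P : MvPolynomial σ F} : P ∈ van F {c} ↔ aeval c P = 0 := by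
  rw [mem_van]
  exact ⟨fun h => h c rfl, fun h f hf => by rw [Set.mem_singleton_iff.1 hf]; exact h⟩

lemma van_prime (c : σ → E) : (van F {c}).IsPrime := by
  have : van F {c} = RingHom.ker (aeval c : MvPolynomial σ F →ₐ[F] E) := by
    ext P; rw [mem_van_one, RingHom.mem_ker]
  rw [this]
  exact RingHom.ker_isPrime _

/-- A point `c` of a set `T` of points is homogeneous, with the set `Γ` of translates. -/
structure Homog (F : Type*) {σ E : Type*} [Fintype σ] [Field F] [Field E] [Algebra F E]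
    (T Γ : Set (σ → E)) (c : σ → E) : Prop where
  mem : c ∈ Γ
  sub : Γ ⊆ T
  num : ∀ g ∈ Γ, ∀ n, numProd F g n = numProd F c n
  dense : ∀ P : MvPolynomial σ F, (∀ g ∈ Γ, aeval g P = 0) → ∀ f ∈ T, aeval f P = 0

/-- the vanishing ideals of the translates -/
def ids (F : Type*) {σ E : Type*} [Fintype σ] [Field F] [Field E] [Algebra F E]
    (Γ : Set (σ → E)) : Set (Ideal (MvPolynomial σ F)) := (fun g => van F {g}) '' Γ

variable {T Γ : Set (σ → E)} {c : σ → E}

lemma numProd_le (hc : c ∈ T) (n : ℕ) : numProd F c n ≤ numProd F (coord T) n := by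
  have h := sum_le (F := F) (T := T) (ι := Unit) (fun _ => ⟨c, hc⟩) (fun _ => 1) (e := 0)
    (fun _ => by simp) (fun i j hij => absurd (Subsingleton.elim i j) hij)
    (fun _ => by rw [map_one]; exact one_ne_zero) n
  simpa using h

/-- Incomparability. -/
lemma Homog.sep (H : Homog F T Γ c) {f g : σ → E} (hf : f ∈ Γ) (hg : g ∈ Γ)
    (h : van F {f} ≠ van F {g}) : ∃ a : MvPolynomial σ F, aeval f a = 0 ∧ aeval g a ≠ 0 := by
  by_contra hcon
  push Not at hcon
  apply h
  apply le_antisymm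
  · intro P hP; rw [mem_van_one] at hP ⊢; exact hcon P hP
  · intro P hP
    rw [mem_van_one] at hP ⊢
    by_contra h0
    obtain ⟨b, -, hb, hb'⟩ := swap (F := F) (f := g) (g := f) (d := P.totalDegree)
      (by rw [H.num f hf, H.num g hg]) le_rfl hP h0
    exact hb' (hcon b hb)

lemma Homog.mul_le (H : Homog F T Γ c) {ι : Type} [Fintype ι] (f : ι → σ → E) (hf : ∀ i, f i ∈ Γ)
    (hinj : Function.Injective fun i => van F {f i}) :
    ∃ e, ∀ n, Fintype.card ι * numProd F c n ≤ numProd F (coord T) (n + e) := by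
  classical
  have h1 : ∀ i j : ι, ∃ a : MvPolynomial σ F, aeval (f i) a ≠ 0 ∧ (i ≠ j → aeval (f j) a = 0) := by
    intro i j
    by_cases hij : i = j
    · exact ⟨1, by rw [map_one]; exact one_ne_zero, fun h => absurd hij h⟩
    · obtain ⟨a, ha, ha'⟩ := H.sep (hf j) (hf i) (fun h => hij (hinj h.symm))
      exact ⟨a, ha', fun _ => ha⟩
  choose a ha ha' using h1
  let b : ι → MvPolynomial σ F := fun i => ∏ j, a i j
  refine ⟨∑ i, (b i).totalDegree, fun n => ?_⟩
  have h := sum_le (F := F) (T := T) (fun i => ⟨f i, H.sub (hf i)⟩) b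
    (e := ∑ i, (b i).totalDegree)
    (fun i => Finset.single_le_sum (f := fun i => (b i).totalDegree) (fun _ _ => Nat.zero_le _)
      (Finset.mem_univ i))
    (fun i j hij => by
      rw [map_prod]
      exact Finset.prod_eq_zero (Finset.mem_univ j) (ha' i j hij))
    (fun i => by
      rw [map_prod]
      exact Finset.prod_ne_zero_iff.2 fun j _ => ha i j) n
  refine le_trans (le_of_eq ?_) h
  rw [Finset.sum_congr rfl fun i _ => H.num _ (hf i) n, Finset.sum_const, Finset.card_univ,
    smul_eq_mul]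

lemma Homog.mul_le' (H : Homog F T Γ c) {r : ℕ} (hr : (r : ℕ∞) ≤ (ids F Γ).encard) :
    ∃ e, ∀ n, r * numProd F c n ≤ numProd F (coord T) (n + e) := by
  obtain ⟨s, hs, hcard⟩ := Set.exists_subset_encard_eq hr
  have hfin : s.Finite := Set.finite_of_encard_eq_coe hcard
  have hs' : ∃ t : Fin r ≃ s, True := by
    have : Fintype s := hfin.fintype
    have h1 : Fintype.card s = r := by
      rw [Set.encard_eq_coe_toFinset_card] at hcard
      rw [← Set.toFinset_card]
      exact_mod_cast hcard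
    exact ⟨(Fintype.equivFinOfCardEq h1).symm, trivial⟩
  obtain ⟨t, -⟩ := hs'
  choose f hf hfe using fun i => hs (t i).2
  obtain ⟨e, he⟩ := H.mul_le f hf (fun i j hij => by
    have h2 : ((t i : s) : Ideal (MvPolynomial σ F)) = t j := by
      rw [← hfe i, ← hfe j]; exact hij
    exact t.injective (Subtype.ext h2))
  refine ⟨e, fun n => ?_⟩
  simpa using he n

lemma Homog.le_mul (H : Homog F T Γ c) {N : ℕ} (hN : (ids F Γ).encard = N) (n : ℕ) :
    numProd F (coord T) n ≤ N * numProd F c n := by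
  have hfin : (ids F Γ).Finite := Set.finite_of_encard_eq_coe hN
  have : Fintype (ids F Γ) := hfin.fintype
  have hcard : Fintype.card (ids F Γ) = N := by
    rw [Set.encard_eq_coe_toFinset_card] at hN
    rw [← Set.toFinset_card]
    exact_mod_cast hN
  choose f hf hfe using fun i : ids F Γ => i.2
  have h := le_sum (F := F) (T := T) (fun i : ids F Γ => ⟨f i, H.sub (hf i)⟩) (fun P hP g hg => by
    refine H.dense P (fun g' hg' => ?_) g hg
    have h1 := hP ⟨van F {g'}, g', hg', rfl⟩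
    have h2 : P ∈ van F {f ⟨van F {g'}, g', hg', rfl⟩} := mem_van_one.2 h1
    have h3 : van F {f ⟨van F {g'}, g', hg', rfl⟩} = van F {g'} := hfe ⟨van F {g'}, g', hg', rfl⟩
    rw [h3] at h2
    exact mem_van_one.1 h2) n
  refine h.trans (le_of_eq ?_)
  rw [Finset.sum_congr rfl fun i _ => H.num _ (hf i) n, Finset.sum_const, Finset.card_univ,
    smul_eq_mul, hcard]

/-- One relation of degree `d` which does not hold on `T`. -/
lemma Homog.two (H : Homog F T Γ c) {d : ℕ} {P : MvPolynomial σ F} (hd : P.totalDegree ≤ d)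
    (hP : aeval c P = 0) (hP' : P ∉ van F T) (n : ℕ) :
    2 * numProd F c n ≤ numProd F (coord T) (n + d) := by
  have h1 : ∃ g ∈ Γ, aeval g P ≠ 0 := by
    by_contra hcon
    push Not at hcon
    exact hP' (H.dense P hcon)
  obtain ⟨g, hg, hgP⟩ := h1
  obtain ⟨b, hb, hb1, hb2⟩ := swap (F := F) (f := c) (g := g) (d := d) (H.num g hg d).symm hd hP hgP
  let f : Bool → T := fun i => cond i ⟨c, H.sub H.mem⟩ ⟨g, H.sub hg⟩
  let Q : Bool → MvPolynomial σ F := fun i => cond i b P
  have h := sum_le (F := F) (T := T) f Q (e := d) (by rintro (_ | _); exacts [hd, hb])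
    (by rintro (_ | _) (_ | _) hij; exacts [absurd rfl hij, hP, hb1, absurd rfl hij])
    (by rintro (_ | _); exacts [hgP, hb2]) n
  rw [Fintype.sum_bool] at h
  have e1 : numProd F (f true).1 n = numProd F c n := rfl
  have e2 : numProd F (f false).1 n = numProd F c n := H.num g hg n
  rw [e1, e2] at h
  omega

lemma Homog.one_iff (H : Homog F T Γ c) :
    (ids F Γ).encard = 1 ↔ ∀ P : MvPolynomial σ F, aeval c P = 0 → P ∈ van F T := by
  constructor
  · intro h P hP
    obtain ⟨I, hI⟩ := Set.encard_eq_one.1 h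
    refine H.dense P fun g hg => ?_
    have h1 : van F {g} ∈ ids F Γ := ⟨g, hg, rfl⟩
    have h2 : van F {c} ∈ ids F Γ := ⟨c, H.mem, rfl⟩
    rw [hI, Set.mem_singleton_iff] at h1 h2
    rw [← mem_van_one, h1, ← h2, mem_van_one]
    exact hP
  · intro h
    rw [Set.encard_eq_one]
    refine ⟨van F {c}, ?_⟩
    rw [Set.eq_singleton_iff_unique_mem]
    refine ⟨⟨c, H.mem, rfl⟩, ?_⟩
    rintro _ ⟨g, hg, rfl⟩
    by_contra hne
    obtain ⟨a, ha, ha'⟩ := H.sep H.mem hg (fun h => hne h.symm)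
    exact ha' (h a ha g (H.sub hg))

/-- The number of the irreducible components. -/
lemma Homog.comp (H : Homog F T Γ c) (hfin : (ids F Γ).Finite) :
    (van F T).minimalPrimes = ids F Γ := by
  have hle : ∀ g ∈ Γ, van F T ≤ van F {g} := fun g hg P hP => mem_van_one.2 (hP g (H.sub hg))
  have hge : ∀ I : Ideal (MvPolynomial σ F), I.IsPrime → van F T ≤ I → ∃ J ∈ ids F Γ, J ≤ I := by
    intro I hI hTI
    have h1 : hfin.toFinset.inf id ≤ I := by
      refine le_trans ?_ hTI
      intro P hP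
      refine H.dense P fun g hg => ?_
      have h2 : hfin.toFinset.inf id ≤ van F {g} :=
        Finset.inf_le (f := id) (hfin.mem_toFinset.2 ⟨g, hg, rfl⟩)
      exact mem_van_one.1 (h2 hP)
    obtain ⟨J, hJ, hJI⟩ := (Ideal.IsPrime.inf_le' hI).1 h1
    exact ⟨J, hfin.mem_toFinset.1 hJ, hJI⟩
  have hinc : ∀ J ∈ ids F Γ, ∀ J' ∈ ids F Γ, J ≤ J' → J = J' := by
    rintro _ ⟨f, hf, rfl⟩ _ ⟨g, hg, rfl⟩ hJ
    by_contra hne
    obtain ⟨a, ha, ha'⟩ := H.sep hf hg hne
    exact ha' (mem_van_one.1 (hJ (mem_van_one.2 ha)))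
  ext I
  constructor
  · rintro ⟨⟨hI, hTI⟩, hmin⟩
    obtain ⟨J, hJ, hJI⟩ := hge I hI hTI
    obtain ⟨g, hg, rfl⟩ := hJ
    have h3 := hmin ⟨van_prime g, hle g hg⟩ hJI
    rw [le_antisymm h3 hJI]
    exact ⟨g, hg, rfl⟩
  · rintro ⟨g, hg, rfl⟩
    refine ⟨⟨van_prime g, hle g hg⟩, ?_⟩
    rintro I ⟨hI, hTI⟩ hIg
    obtain ⟨J, hJ, hJI⟩ := hge I hI hTI
    have h3 := hinc J hJ _ ⟨g, hg, rfl⟩ (hJI.trans hIg)
    rw [← h3]
    exact hJI

/-- The limit. -/
lemma Homog.tendsto (H : Homog F T Γ c) :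
    Tendsto (fun n => (numProd F (coord T) n : ℝ≥0∞) / numProd F c n) atTop
      (𝓝 ((ids F Γ).encard : ℝ≥0∞)) := by
  have hTne : Nonempty T := ⟨⟨c, H.sub H.mem⟩⟩
  have hnt : Nontrivial (T → E) := Function.nontrivial
  set m : ℕ → ℕ := numProd F (coord T) with hm
  set p : ℕ → ℕ := numProd F c with hp
  have hp0 : ∀ n, (0 : ℝ) < p n := fun n => by
    exact_mod_cast numProd_pos (F := F) c n
  have hm0 : ∀ n, (0 : ℝ) < m n := fun n => by
    exact_mod_cast numProd_pos (F := F) (coord T) n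
  have hconv : ∀ n, (m n : ℝ≥0∞) / p n = ENNReal.ofReal ((m n : ℝ) / p n) := by
    intro n
    rw [ENNReal.ofReal_div_of_pos (hp0 n), ENNReal.ofReal_natCast, ENNReal.ofReal_natCast]
  have hg : ∀ e : ℕ, Tendsto (fun n : ℕ => (1 + (Fintype.card σ : ℝ) / (n + 1)) ^ e) atTop
      (𝓝 1) := by
    intro e
    have h1 : Tendsto (fun n : ℕ => (Fintype.card σ : ℝ) / (n + 1)) atTop (𝓝 0) := by
      have := (tendsto_const_div_atTop_nhds_zero_nat (Fintype.card σ : ℝ)).comp
        (tendsto_add_atTop_nat 1)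
      refine this.congr fun n => ?_
      simp
    have h2 := (h1.const_add 1).pow e
    simpa using h2
  have key : ∀ (r e : ℕ), (∀ n, r * p n ≤ m (n + e)) →
      ∀ n : ℕ, (r : ℝ) * ((1 + (Fintype.card σ : ℝ) / (n + 1)) ^ e)⁻¹ ≤ (m n : ℝ) / p n := by
    intro r e h n
    have h1 : (r : ℝ) * p n ≤ m (n + e) := by exact_mod_cast h n
    have h2 := numProd_add_real (F := F) (coord T) n e
    have h3 : (0 : ℝ) < (1 + (Fintype.card σ : ℝ) / (n + 1)) ^ e := by positivity
    rw [← div_eq_mul_inv, div_le_div_iff₀ h3 (hp0 n)]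
    calc (r : ℝ) * p n ≤ m (n + e) := h1
      _ ≤ _ := h2
      _ = _ := by ring
  simp_rw [hconv]
  rcases eq_or_ne (ids F Γ).encard ⊤ with htop | htop
  · rw [htop, ENat.toENNReal_top]
    rw [ENNReal.tendsto_ofReal_nhds_top, tendsto_atTop]
    intro b
    obtain ⟨r, hr⟩ := exists_nat_gt (b + 1)
    obtain ⟨e, he⟩ := H.mul_le' (r := r) (by rw [htop]; exact le_top)
    have h1 : Tendsto (fun n : ℕ => (r : ℝ) * ((1 + (Fintype.card σ : ℝ) / (n + 1)) ^ e)⁻¹) atTop
        (𝓝 (r * 1⁻¹)) := ((hg e).inv₀ one_ne_zero).const_mul _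
    rw [inv_one, mul_one] at h1
    filter_upwards [h1.eventually (lt_mem_nhds (show b < (r : ℝ) by linarith))] with n hn
    exact hn.le.trans (key r e he n)
  · obtain ⟨N, hN⟩ := ENat.ne_top_iff_exists.1 htop
    obtain ⟨e, he⟩ := H.mul_le' (r := N) (by rw [← hN])
    rw [← hN, ENat.toENNReal_coe, ← ENNReal.ofReal_natCast]
    apply ENNReal.tendsto_ofReal
    have h1 : Tendsto (fun n : ℕ => (N : ℝ) * ((1 + (Fintype.card σ : ℝ) / (n + 1)) ^ e)⁻¹) atTop
        (𝓝 (N * 1⁻¹)) := ((hg e).inv₀ one_ne_zero).const_mul _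
    rw [inv_one, mul_one] at h1
    refine tendsto_of_tendsto_of_tendsto_of_le_of_le h1 tendsto_const_nhds (key N e he) fun n => ?_
    change (m n : ℝ) / p n ≤ N
    rw [div_le_iff₀ (hp0 n)]
    exact_mod_cast H.le_mul hN.symm n

end Pool.Agent.U226.HF
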