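import Pool.Agent.U226.HF.TDefs

/-!
# The period conjecture in coordinates: definitions
-/

set_option autoImplicit false

open MvPolynomial

namespace Pool.Agent.U226.HF

/-- The field of the algebraic numbers. -/
noncomputable abbrev Qbar : IntermediateField ℚ ℂ := algebraicClosure ℚ ℂ

/-- `c` is an invertible complex matrix with `c^{⊗ n} (dR) = (2 π i) ^ k B` for all pairs of `S`. -/
def IsPeriodMatrix {N : ℕ} (S : Set (TensorPair Qbar N)) (c : Fin N × Fin N → ℂ) : Prop :=
  (mat c).det ≠ 0 ∧ ∀ s ∈ S, Respects (mat c) (2 * Real.pi * Complex.I) s

/-- The coordinate functions on a set `T` of matrices. -/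
def entries {N : ℕ} (T : Set (Fin N × Fin N → ℂ)) (ij : Fin N × Fin N) : T → ℂ := fun f => f.1 ij

/-- The relation `P` holds at all complex points of the torsor. -/
def Holds {N : ℕ} (S : Set (TensorPair Qbar N)) (P : MvPolynomial (Fin N × Fin N) Qbar) : Prop :=
  ∀ f ∈ torsor S ℂ, aeval f P = 0

/-- The period conjecture: all polynomial relations with algebraic coefficients between the
entries of `c` hold on the torsor. -/
def PeriodConjecture {N : ℕ} (S : Set (TensorPair Qbar N)) (c : Fin N × Fin N → ℂ) : Prop :=
  ∀ P : MvPolynomial (Fin N × Fin N) Qbar, aeval c P = 0 → Holds S P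

/-- The ideal of the polynomials that vanish on the torsor. -/
noncomputable def torsorIdeal {N : ℕ} (S : Set (TensorPair Qbar N)) :
    Ideal (MvPolynomial (Fin N × Fin N) Qbar) where
  carrier := {P | Holds S P}
  zero_mem' := fun f _ => map_zero _
  add_mem' := fun ha hb f hf => by rw [map_add, ha f hf, hb f hf, add_zero]
  smul_mem' := fun r P hP f hf => by rw [smul_eq_mul, map_mul, hP f hf, mul_zero]

/-- The largest number of members of the family `x` that are algebraically independent over `F`. -/
noncomputable def numInd (F : Type*) {σ B : Type*} [Fintype σ] [Field F] [CommRing B] [Algebra F B]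
    (x : σ → B) : ℕ :=
  sSup {t | ∃ s : Finset σ, s.card = t ∧ AlgebraicIndependent F fun i : s => x i}

/-- The period conjecture in the weak form: the transcendence degree of the field generated by the
entries of `c` is the largest number of entries that are algebraically independent as functions on
the torsor (the dimension of the torsor). -/
def WeakPeriodConjecture {N : ℕ} (S : Set (TensorPair Qbar N)) (c : Fin N × Fin N → ℂ) : Prop :=
  Algebra.trdeg Qbar (IntermediateField.adjoin Qbar (Set.range c)) =
    numInd Qbar (entries (torsor S ℂ))

end Pool.Agent.U226.HF
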