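import Pool.Agent.U226.HF.Defs

/-!
# Pairs of tensors and the torsor which they define
-/

set_option autoImplicit false

namespace Pool.Agent.U226.HF

/-- The tensor `f^{⊗ n} (a)` in coordinates: `a` has the coordinates `a I`, `I ∈ {1, ..., N} ^ n`. -/
def act {R : Type*} [CommRing R] {N n : ℕ} (f : Matrix (Fin N) (Fin N) R)
    (a : (Fin n → Fin N) → R) : (Fin n → Fin N) → R :=
  fun J => ∑ I, (∏ t, f (J t) (I t)) * a I

/-- A number `k` and two tensors of degree `n`, in coordinates: `dR` with coefficients in the field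
`F` and `B` with rational coefficients. -/
structure TensorPair (F : Type*) (N : ℕ) where
  n : ℕ
  k : ℕ
  dR : (Fin n → Fin N) → F
  B : (Fin n → Fin N) → ℚ

/-- `f^{⊗ n} (dR) = l ^ k B`. -/
def Respects {F : Type*} [Field F] {N : ℕ} {R : Type*} [CommRing R] [Algebra F R] [Algebra ℚ R]
    (f : Matrix (Fin N) (Fin N) R) (l : R) (s : TensorPair F N) : Prop :=
  act f (fun I => algebraMap F R (s.dR I)) = fun J => l ^ s.k * algebraMap ℚ R (s.B J)

/-- The matrix with the entries `x (i, j)`. -/
def mat {R : Type*} {N : ℕ} (x : Fin N × Fin N → R) : Matrix (Fin N) (Fin N) R :=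
  Matrix.of fun i j => x (i, j)

/-- The invertible matrices `x` with entries in `R` such that, for some `l ≠ 0`,
`x^{⊗ n} (dR) = l ^ k B` for all the pairs of `S`. -/
def torsor {F : Type*} [Field F] {N : ℕ} (S : Set (TensorPair F N)) (R : Type*) [Field R]
    [Algebra F R] [Algebra ℚ R] : Set (Fin N × Fin N → R) :=
  {x | (mat x).det ≠ 0 ∧ ∃ l : R, l ≠ 0 ∧ ∀ s ∈ S, Respects (mat x) l s}

end Pool.Agent.U226.HF
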