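import Pool.Agent.U226.HF.Index
import Pool.Agent.U226.HF.TDefs

/-!
# The torsor of periods is homogeneous
-/

set_option autoImplicit false
set_option linter.unusedSectionVars false

open Finset MvPolynomial Filter Topology

namespace Pool.Agent.U226.HF

section Act

variable {R : Type*} [CommRing R] {N n : ℕ}

lemma act_mul (f g : Matrix (Fin N) (Fin N) R) (a : (Fin n → Fin N) → R) :
    act (f * g) a = act f (act g a) := by
  funext J
  simp only [act]
  have h : ∀ I : Fin n → Fin N, (∏ t, (f * g) (J t) (I t)) =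
      ∑ K : Fin n → Fin N, (∏ t, f (J t) (K t)) * ∏ t, g (K t) (I t) := by
    intro I
    simp only [Matrix.mul_apply]
    rw [Finset.prod_univ_sum]
    simp only [Fintype.piFinset_univ, Finset.prod_mul_distrib]
  simp only [h, Finset.sum_mul, Finset.mul_sum]
  rw [Finset.sum_comm]
  refine Finset.sum_congr rfl fun K _ => Finset.sum_congr rfl fun I _ => ?_
  ring

lemma act_one (a : (Fin n → Fin N) → R) : act 1 a = a := by
  funext J
  rw [act, Finset.sum_eq_single J]
  · simp
  · intro I _ hI
    have : ∃ t, J t ≠ I t := by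
      by_contra h
      push Not at h
      exact hI (funext h).symm
    obtain ⟨t, ht⟩ := this
    have h0 : ∏ t, (1 : Matrix (Fin N) (Fin N) R) (J t) (I t) = 0 :=
      Finset.prod_eq_zero (Finset.mem_univ t) (Matrix.one_apply_ne ht)
    rw [h0, zero_mul]
  · intro h; exact absurd (Finset.mem_univ _) h

lemma act_smul (f : Matrix (Fin N) (Fin N) R) (r : R) (a : (Fin n → Fin N) → R) :
    act f (fun J => r * a J) = fun J => r * act f a J := by
  funext J
  rw [act, act, Finset.mul_sum]
  exact Finset.sum_congr rfl fun I _ => by ring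

lemma act_map {R' : Type*} [CommRing R'] (φ : R →+* R') (f : Matrix (Fin N) (Fin N) R)
    (a : (Fin n → Fin N) → R) : act (f.map φ) (fun I => φ (a I)) = fun J => φ (act f a J) := by
  funext J
  simp only [act, map_sum, map_mul, map_prod, Matrix.map_apply]

end Act

section Null

variable {F E τ : Type*} [Field F] [IsAlgClosed F] [Field E] [Algebra F E] [Finite τ]

/-- A system of equations and inequations over `F` which has a solution in `E` has a solution in
`F`. -/
lemma exists_point (PP : Set (MvPolynomial τ F)) (Q : MvPolynomial τ F) (z : τ → E)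
    (h : ∀ P ∈ PP, aeval z P = 0) (hQ : aeval z Q ≠ 0) :
    ∃ y : τ → F, (∀ P ∈ PP, aeval y P = 0) ∧ aeval y Q ≠ 0 := by
  let I : Ideal (MvPolynomial τ F) := RingHom.ker (aeval z : MvPolynomial τ F →ₐ[F] E)
  have hI : I.IsPrime := RingHom.ker_isPrime _
  have h1 := MvPolynomial.IsPrime.vanishingIdeal_zeroLocus (K := F) I
  have h2 : Q ∉ vanishingIdeal F (zeroLocus F I) := by
    rw [h1]; exact hQ
  rw [mem_vanishingIdeal_iff] at h2
  push Not at h2
  obtain ⟨y, hy, hy'⟩ := h2
  exact ⟨y, fun P hP => hy P (h P hP), hy'⟩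

end Null

section Main

variable {F : Type*} [Field F] {N : ℕ} {S : Set (TensorPair F N)}

/-- the multiplication with a matrix -/
def tr {R : Type*} [CommRing R] (g : Matrix (Fin N) (Fin N) R) (x : Fin N × Fin N → R) :
    Fin N × Fin N → R := fun ij => (g * mat x) ij.1 ij.2

lemma mat_tr {R : Type*} [CommRing R] (g : Matrix (Fin N) (Fin N) R) (x : Fin N × Fin N → R) :
    mat (tr g x) = g * mat x := rfl

variable (S) in
/-- The group of the torsor: the invertible matrices `g` over `F` with `g^{⊗ n} B = m ^ k B`. -/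
def InGroup [Algebra ℚ F] (g : Matrix (Fin N) (Fin N) F) : Prop :=
  g.det ≠ 0 ∧ ∃ m : F, m ≠ 0 ∧ ∀ s ∈ S, act g (fun I => algebraMap ℚ F (s.B I)) =
    fun J => m ^ s.k * algebraMap ℚ F (s.B J)

variable {E : Type*} [Field E] [Algebra F E] [Algebra ℚ F] [Algebra ℚ E] [IsScalarTower ℚ F E]

lemma InGroup.tr_mem {g : Matrix (Fin N) (Fin N) F} (hg : InGroup S g) {x : Fin N × Fin N → E}
    (hx : x ∈ torsor S E) : tr (g.map (algebraMap F E)) x ∈ torsor S E := by
  obtain ⟨hd, m, hm, hs⟩ := hg
  obtain ⟨hxd, l, hl, hxs⟩ := hx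
  have hmap : (algebraMap F E).mapMatrix g = g.map (algebraMap F E) := rfl
  refine ⟨?_, algebraMap F E m * l, mul_ne_zero ?_ hl, fun s hsS => ?_⟩
  · rw [mat_tr, Matrix.det_mul, ← hmap, ← RingHom.map_det]
    exact mul_ne_zero ((map_ne_zero _).2 hd) hxd
  · exact (map_ne_zero _).2 hm
  · rw [Respects, mat_tr, act_mul]
    rw [hxs s hsS, act_smul]
    have h1 := act_map (algebraMap F E) g (fun I => algebraMap ℚ F (s.B I))
    rw [hs s hsS] at h1
    have h2 : (fun I : Fin s.n → Fin N => algebraMap ℚ E (s.B I)) =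
        fun I => algebraMap F E (algebraMap ℚ F (s.B I)) := by
      funext I; rw [← IsScalarTower.algebraMap_apply]
    rw [h2, h1]
    funext J
    simp only [map_mul, map_pow, ← IsScalarTower.algebraMap_apply]
    ring

/-- Two points of the torsor over `F`. -/
lemma exists_group {x y : Fin N × Fin N → F} (hx : x ∈ torsor S F) (hy : y ∈ torsor S F) :
    ∃ g, InGroup S g ∧ tr g x = y := by
  obtain ⟨hxd, l, hl, hxs⟩ := hx
  obtain ⟨hyd, m, hm, hys⟩ := hy
  have hu : IsUnit (mat x).det := isUnit_iff_ne_zero.2 hxd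
  refine ⟨mat y * (mat x)⁻¹, ⟨?_, m * l⁻¹, mul_ne_zero hm (inv_ne_zero hl), fun s hs => ?_⟩, ?_⟩
  · rw [Matrix.det_mul]
    refine mul_ne_zero hyd ?_
    intro h0
    have h1 : (mat x * (mat x)⁻¹).det = 1 := by
      rw [Matrix.mul_nonsing_inv _ hu, Matrix.det_one]
    rw [Matrix.det_mul, h0, mul_zero] at h1
    exact zero_ne_one h1
  · have h1 := hxs s hs
    rw [Respects] at h1
    have h2 : act (mat x)⁻¹ (fun J => l ^ s.k * algebraMap ℚ F (s.B J)) =
        fun I => algebraMap F F (s.dR I) := by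
      rw [← h1, ← act_mul, Matrix.nonsing_inv_mul _ hu, act_one]
    rw [act_smul] at h2
    have h3 : act (mat x)⁻¹ (fun J => algebraMap ℚ F (s.B J)) =
        fun I => (l ^ s.k)⁻¹ * algebraMap F F (s.dR I) := by
      funext I
      have h4 := congrFun h2 I
      rw [← h4, ← mul_assoc, inv_mul_cancel₀ (pow_ne_zero _ hl), one_mul]
    rw [act_mul, h3, act_smul, hys s hs]
    funext J
    rw [mul_pow, inv_pow]
    ring
  · funext ij
    rw [tr, Matrix.mul_assoc, Matrix.nonsing_inv_mul _ hu, Matrix.mul_one]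
    rfl

/-- Translation does not change the number of independent products. -/
lemma numProd_tr {g : Matrix (Fin N) (Fin N) F} (hg : g.det ≠ 0) (x : Fin N × Fin N → E) (n : ℕ) :
    numProd F (tr (g.map (algebraMap F E)) x) n = numProd F x n := by
  classical
  have key : ∀ (g : Matrix (Fin N) (Fin N) F) (x : Fin N × Fin N → E),
      prodSpan F (tr (g.map (algebraMap F E)) x) n ≤ prodSpan F x n := by
    intro g x
    refine prodSpan_le (fun ij => ?_) n
    rw [tr, Matrix.mul_apply]
    refine Submodule.sum_mem _ fun k _ => ?_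
    rw [Matrix.map_apply, ← Algebra.smul_def]
    exact Submodule.smul_mem _ _ (coord_mem (F := F) (x := x) (k, ij.2))
  have hu : IsUnit g.det := isUnit_iff_ne_zero.2 hg
  have h2 : tr ((g⁻¹).map (algebraMap F E)) (tr (g.map (algebraMap F E)) x) = x := by
    funext ij
    rw [tr, mat_tr, ← Matrix.mul_assoc, ← Matrix.map_mul, Matrix.nonsing_inv_mul _ hu]
    have : (1 : Matrix (Fin N) (Fin N) F).map (algebraMap F E) = 1 :=
      Matrix.map_one _ (map_zero _) (map_one _)
    rw [this, Matrix.one_mul]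
    rfl
  have h3 := key g⁻¹ (tr (g.map (algebraMap F E)) x)
  rw [h2] at h3
  rw [numProd, numProd, le_antisymm (key g x) h3]

/-- The equations of the torsor in the variables `x (i, j)` and `l`. -/
noncomputable def eqn (s : TensorPair F N) (J : Fin s.n → Fin N) :
    MvPolynomial (Option (Fin N × Fin N)) F :=
  (∑ I, (∏ t, X (some (J t, I t))) * C (s.dR I)) - X none ^ s.k * C (algebraMap ℚ F (s.B J))

/-- the point with coordinates `x`, `l` -/
def pt {R : Type*} (x : Fin N × Fin N → R) (l : R) : Option (Fin N × Fin N) → R :=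
  fun o => o.elim l x

lemma pt_eq {R : Type*} (z : Option (Fin N × Fin N) → R) :
    pt (fun ij => z (some ij)) (z none) = z := by
  funext o
  cases o <;> rfl

lemma aeval_eqn {R : Type*} [Field R] [Algebra F R] [Algebra ℚ R] [IsScalarTower ℚ F R]
    (x : Fin N × Fin N → R) (l : R) (s : TensorPair F N) (J : Fin s.n → Fin N) :
    aeval (pt x l) (eqn s J) = act (mat x) (fun I => algebraMap F R (s.dR I)) J -
      l ^ s.k * algebraMap ℚ R (s.B J) := by
  rw [eqn, map_sub, map_sum, map_mul, map_pow, aeval_X, MvPolynomial.aeval_C,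
    ← IsScalarTower.algebraMap_apply]
  congr 1
  refine Finset.sum_congr rfl fun I _ => ?_
  rw [map_mul, map_prod, MvPolynomial.aeval_C]
  congr 1
  refine Finset.prod_congr rfl fun t _ => ?_
  rw [aeval_X]; rfl

/-- the determinant times `l` -/
noncomputable def detl (F : Type*) [Field F] (N : ℕ) : MvPolynomial (Option (Fin N × Fin N)) F :=
  (Matrix.of fun i j : Fin N => (X (some (i, j)) : MvPolynomial (Option (Fin N × Fin N)) F)).det *
    X none

lemma aeval_detl {R : Type*} [Field R] [Algebra F R] (x : Fin N × Fin N → R) (l : R) :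
    aeval (pt x l) (detl F N) = (mat x).det * l := by
  rw [detl, map_mul, aeval_X, AlgHom.map_det]
  congr 2
  ext i j
  simp [mat, pt]

/-- a polynomial in the `x (i, j)` -/
noncomputable def emb (P : MvPolynomial (Fin N × Fin N) F) :
    MvPolynomial (Option (Fin N × Fin N)) F := rename some P

lemma aeval_emb {R : Type*} [CommRing R] [Algebra F R] (x : Fin N × Fin N → R) (l : R)
    (P : MvPolynomial (Fin N × Fin N) F) : aeval (pt x l) (emb P) = aeval x P := by
  rw [emb, aeval_rename]; rfl

/-- The polynomial `P (g x)`. -/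
noncomputable def sub (g : Matrix (Fin N) (Fin N) F) (P : MvPolynomial (Fin N × Fin N) F) :
    MvPolynomial (Fin N × Fin N) F :=
  aeval (fun ij : Fin N × Fin N => ∑ k, C (g ij.1 k) * X (k, ij.2)) P

lemma aeval_sub {R : Type*} [CommRing R] [Algebra F R] (g : Matrix (Fin N) (Fin N) F)
    (P : MvPolynomial (Fin N × Fin N) F) (x : Fin N × Fin N → R) :
    aeval x (sub g P) = aeval (tr (g.map (algebraMap F R)) x) P := by
  have h : (aeval x : MvPolynomial (Fin N × Fin N) F →ₐ[F] R).comp
      (aeval (fun ij : Fin N × Fin N => ∑ k, C (g ij.1 k) * X (k, ij.2))) =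
      aeval (tr (g.map (algebraMap F R)) x) := by
    apply MvPolynomial.algHom_ext
    intro ij
    rw [AlgHom.comp_apply, aeval_X, aeval_X, map_sum, tr, Matrix.mul_apply]
    refine Finset.sum_congr rfl fun k _ => ?_
    rw [map_mul, aeval_X, MvPolynomial.aeval_C, Matrix.map_apply]; rfl
  exact DFunLike.congr_fun h P

variable [IsAlgClosed F]

/-- A point over `F`. -/
lemma exists_torsor_point {x : Fin N × Fin N → E} (hx : x ∈ torsor S E)
    (PP : Set (MvPolynomial (Fin N × Fin N) F)) (Q : MvPolynomial (Fin N × Fin N) F)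
    (h : ∀ P ∈ PP, aeval x P = 0) (hQ : aeval x Q ≠ 0) :
    ∃ y ∈ torsor S F, (∀ P ∈ PP, aeval y P = 0) ∧ aeval y Q ≠ 0 := by
  obtain ⟨hd, l, hl, hs⟩ := hx
  obtain ⟨z, hz1, hz2⟩ := exists_point (F := F) (E := E)
    ({P | ∃ s ∈ S, ∃ J, P = eqn s J} ∪ emb '' PP) (detl F N * emb Q) (pt x l)
    (by
      rintro P (⟨s, hsS, J, rfl⟩ | ⟨P, hP, rfl⟩)
      · rw [aeval_eqn, hs s hsS, sub_self]
      · rw [aeval_emb]; exact h P hP)
    (by
      rw [map_mul, aeval_detl, aeval_emb]
      exact mul_ne_zero (mul_ne_zero hd hl) hQ)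
  rw [← pt_eq z] at hz1 hz2
  rw [map_mul, aeval_detl, aeval_emb] at hz2
  have h1 := left_ne_zero_of_mul hz2
  refine ⟨fun ij => z (some ij), ⟨left_ne_zero_of_mul h1, z none, right_ne_zero_of_mul h1,
    fun s hsS => ?_⟩, fun P hP => ?_, right_ne_zero_of_mul hz2⟩
  · funext J
    have h2 := hz1 _ (Or.inl ⟨s, hsS, J, rfl⟩)
    rw [aeval_eqn] at h2
    exact sub_eq_zero.1 h2
  · have h2 := hz1 _ (Or.inr ⟨P, hP, rfl⟩)
    rwa [aeval_emb] at h2

/-- **The torsor is homogeneous.** -/
theorem homog {c : Fin N × Fin N → E} (hc : c ∈ torsor S E) :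
    Homog F (torsor S E) {x | ∃ g, InGroup S g ∧ x = tr (g.map (algebraMap F E)) c} c where
  mem := by
    refine ⟨1, ⟨by rw [Matrix.det_one]; exact one_ne_zero, 1, one_ne_zero, fun s _ => ?_⟩, ?_⟩
    · rw [act_one]; simp
    · have : (1 : Matrix (Fin N) (Fin N) F).map (algebraMap F E) = 1 :=
        Matrix.map_one _ (map_zero _) (map_one _)
      rw [this]
      funext ij
      rw [tr, Matrix.one_mul]; rfl
  sub := by
    rintro _ ⟨g, hg, rfl⟩
    exact hg.tr_mem hc
  num := by
    rintro _ ⟨g, hg, rfl⟩ n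
    exact numProd_tr hg.1 c n
  dense := by
    intro P hP f hf
    by_contra hne
    obtain ⟨y, hy, -, hyP⟩ := exists_torsor_point hf ∅ P (fun _ h => absurd h (Set.notMem_empty _))
      hne
    obtain ⟨x, hx, hxP, -⟩ := exists_torsor_point hc {Q | ∃ g, InGroup S g ∧ Q = sub g P} 1
      (by
        rintro _ ⟨g, hg, rfl⟩
        rw [aeval_sub]
        exact hP _ ⟨g, hg, rfl⟩)
      (by rw [map_one]; exact one_ne_zero)
    obtain ⟨g, hg, rfl⟩ := exists_group hx hy
    apply hyP
    have h1 := hxP _ ⟨g, hg, rfl⟩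
    rw [aeval_sub] at h1
    exact h1

end Main

end Pool.Agent.U226.HF
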