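import Pool.Agent.U226.HF.Index

/-!
# The growth of the number of independent products and algebraic independence
-/

set_option autoImplicit false
set_option linter.unusedSectionVars false

open Finset MvPolynomial

namespace Pool.Agent.U226.HF

section Lower

variable {F σ B : Type*} [Fintype σ] [Field F] [CommRing B] [Algebra F B]
  (x : σ → B)

lemma lower (s : Finset σ) (hs : AlgebraicIndependent F fun i : s => x i) (n : ℕ) :
    (n + 1) ^ s.card ≤ numProd F x (s.card * n) := by
  classical
  let e : (s → Fin (n + 1)) → (s →₀ ℕ) := fun u => Finsupp.equivFunOnFinite.symm fun i => (u i : ℕ)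
  have he : Function.Injective e := by
    intro u v h
    funext i
    have := DFunLike.congr_fun h i
    exact Fin.ext this
  have hli : LinearIndependent F fun u : s → Fin (n + 1) =>
      aeval (fun i : s => x i) (monomial (e u) (1 : F)) := by
    have h1 : LinearIndependent F fun m : s →₀ ℕ => aeval (fun i : s => x i) (monomial m (1 : F)) := by
      have h2 := (MvPolynomial.basisMonomials s F).linearIndependent.map'
        (aeval (fun i : s => x i) : MvPolynomial s F →ₐ[F] B).toLinearMap
        (LinearMap.ker_eq_bot.2 hs)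
      have h3 : (fun m : s →₀ ℕ => aeval (fun i : s => x i) (monomial m (1 : F))) =
          (aeval (fun i : s => x i) : MvPolynomial s F →ₐ[F] B).toLinearMap ∘
            (MvPolynomial.basisMonomials s F) := by
        funext m
        rw [Function.comp_apply, coe_basisMonomials]; rfl
      rw [h3]
      exact h2
    exact h1.comp e he
  have hmem : ∀ u : s → Fin (n + 1), aeval (fun i : s => x i) (monomial (e u) (1 : F)) ∈
      prodSpan F x (s.card * n) := by
    intro u
    let w : σ → ℕ := fun i => if h : i ∈ s then (u ⟨i, h⟩ : ℕ) else 0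
    have hw : ∀ i : s, w i = u i := fun i => dif_pos i.2
    have hw' : ∀ i, i ∉ s → w i = 0 := fun i hi => dif_neg hi
    have h1 : aeval (fun i : s => x i) (monomial (e u) (1 : F)) = prodPow x w := by
      rw [aeval_monomial', one_smul, prodPow, prodPow,
        ← Finset.prod_subset (Finset.subset_univ s) (fun i _ hi => by rw [hw' i hi, pow_zero]),
        ← Finset.prod_coe_sort s]
      exact Finset.prod_congr rfl fun i _ => by rw [hw]; rfl
    rw [h1]
    apply prodPow_mem
    rw [← Finset.sum_subset (Finset.subset_univ s) (fun i _ hi => hw' i hi),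
      ← Finset.sum_coe_sort s]
    refine (Finset.sum_le_card_nsmul _ _ n fun i _ => ?_).trans ?_
    · rw [hw]; exact Nat.lt_succ_iff.1 (u i).2
    · rw [smul_eq_mul, Finset.card_univ, Fintype.card_coe]
  have h2 : Fintype.card (s → Fin (n + 1)) ≤ numProd F x (s.card * n) := by
    rw [numProd]
    have h3 : LinearIndependent F fun u : s → Fin (n + 1) =>
        (⟨_, hmem u⟩ : prodSpan F x (s.card * n)) :=
      LinearIndependent.of_comp (prodSpan F x (s.card * n)).subtype hli
    exact h3.fintype_card_le_finrank
  simpa using h2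

lemma lower' (s : Finset σ) (hs : AlgebraicIndependent F fun i : s => x i) (n : ℕ) :
    (n + 1) ^ s.card ≤ s.card ^ s.card * numProd F x n := by
  rcases Nat.eq_zero_or_pos s.card with h0 | h0
  · rw [h0, pow_zero, pow_zero, one_mul]
    have h1 := lower x s hs n
    rw [h0, pow_zero, zero_mul] at h1
    exact h1.trans (numProd_mono (Nat.zero_le n))
  · have h1 := lower x s hs (n / s.card)
    have h2 : numProd F x (s.card * (n / s.card)) ≤ numProd F x n :=
      numProd_mono (Nat.mul_div_le n s.card)
    have h3 : n + 1 ≤ s.card * (n / s.card + 1) := by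
      have := Nat.lt_mul_div_succ n h0
      omega
    calc (n + 1) ^ s.card ≤ (s.card * (n / s.card + 1)) ^ s.card := Nat.pow_le_pow_left h3 _
      _ = s.card ^ s.card * (n / s.card + 1) ^ s.card := Nat.mul_pow _ _ _
      _ ≤ _ := Nat.mul_le_mul_left _ (h1.trans h2)

end Lower

section Upper

variable {F σ B : Type*} [Fintype σ] [LinearOrder σ] [Field F] [CommRing B] [Algebra F B]
  {x : σ → B}

lemma std_of_le {m m' : DegLex (σ →₀ ℕ)} (h : m ∈ std F x) (hle : ∀ i, ex m' i ≤ ex m i) :
    m' ∈ std F x := by
  have e : m = m' + toDegLex (Finsupp.equivFunOnFinite.symm (ex m - ex m')) := by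
    apply ex_inj
    funext i
    have h1 : ex (toDegLex (Finsupp.equivFunOnFinite.symm (ex m - ex m'))) i =
      ex m i - ex m' i := rfl
    rw [ex_add, Pi.add_apply, h1]
    have := hle i
    omega
  rw [e] at h
  exact std_of_add h

/-- A relation gives a monomial which is not standard. -/
lemma exists_not_std (s : Finset σ) (hs : ¬ AlgebraicIndependent F fun i : s => x i) :
    ∃ m : DegLex (σ →₀ ℕ), m ∉ std F x ∧ ∀ i, i ∉ s → ex m i = 0 := by
  classical
  rw [algebraicIndependent_iff] at hs
  push Not at hs
  obtain ⟨Q, hQ, hQ0⟩ := hs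
  let P : MvPolynomial σ F := rename (Subtype.val : s → σ) Q
  have hP0 : P ≠ 0 := by
    intro h
    apply hQ0
    apply rename_injective _ Subtype.val_injective
    rw [map_zero]; exact h
  have hP : aeval x P = 0 := by
    have : aeval x P = aeval (fun i : s => x i) Q := by
      rw [aeval_rename]; rfl
    rw [this]; exact hQ
  have hne : P.support.Nonempty := by
    rw [Finset.nonempty_iff_ne_empty]
    intro h; exact hP0 (support_eq_empty.1 h)
  obtain ⟨m, hm, hmax⟩ := P.support.exists_max_image (fun m => toDegLex m) hne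
  refine ⟨toDegLex m, ?_, ?_⟩
  · intro hstd
    apply hstd
    have h1 : aeval x P = ∑ m' ∈ P.support, coeff m' P • vm x (toDegLex m') := by
      conv_lhs => rw [P.as_sum, map_sum]
      exact Finset.sum_congr rfl fun m' _ => aeval_monomial' x m' _
    rw [hP, ← Finset.add_sum_erase _ _ hm] at h1
    have hc : coeff m P ≠ 0 := mem_support_iff.1 hm
    have h2 := eq_neg_of_add_eq_zero_left h1.symm
    have h3 : vm x (toDegLex m) =
        (coeff m P)⁻¹ • -(∑ m' ∈ P.support.erase m, coeff m' P • vm x (toDegLex m')) := by
      rw [← h2, smul_smul, inv_mul_cancel₀ hc, one_smul]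
    rw [h3]
    apply Submodule.smul_mem
    apply Submodule.neg_mem
    apply Submodule.sum_mem
    intro m' hm'
    apply Submodule.smul_mem
    apply Submodule.subset_span
    refine ⟨toDegLex m', ?_, rfl⟩
    refine lt_of_le_of_ne (hmax m' (Finset.mem_of_mem_erase hm')) fun h => ?_
    exact Finset.ne_of_mem_erase hm' (toDegLex_injective h)
  · intro i hi
    have h1 : m ∈ (rename (Subtype.val : s → σ) Q).support := hm
    have h2 := MvPolynomial.support_rename_of_injective (R := F) (p := Q)
      (f := (Subtype.val : s → σ)) Subtype.val_injective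
    rw [h2] at h1
    obtain ⟨u, hu, rfl⟩ := Finset.mem_image.1 h1
    have h3 : (Finsupp.mapDomain (Subtype.val : s → σ) u) i = 0 := by
      apply Finsupp.mapDomain_of_notMem_range
      rintro ⟨j, hj⟩
      exact hi (hj ▸ j.2)
    exact h3

lemma upper_aux {t : ℕ} (h : ∀ s : Finset σ, s.card = t + 1 →
    ¬ AlgebraicIndependent F fun i : s => x i) :
    ∃ C, ∀ n, numProd F x n ≤ C * (n + 1) ^ t := by
  classical
  choose! m hm hm' using fun (s : Finset σ) (hs : s.card = t + 1) => exists_not_std s (h s hs)
  let D : ℕ := 1 + ∑ s : Finset σ, ∑ i, ex (m s) i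
  have hD : ∀ s i, ex (m s) i ≤ D := by
    intro s i
    have h1 : ex (m s) i ≤ ∑ i, ex (m s) i :=
      Finset.single_le_sum (f := fun i => ex (m s) i) (fun _ _ => Nat.zero_le _) (Finset.mem_univ i)
    have h2 : ∑ i, ex (m s) i ≤ ∑ s : Finset σ, ∑ i, ex (m s) i :=
      Finset.single_le_sum (f := fun s => ∑ i, ex (m s) i) (fun _ _ => Nat.zero_le _)
        (Finset.mem_univ s)
    omega
  refine ⟨2 ^ Fintype.card σ * D ^ Fintype.card σ, fun n => ?_⟩
  rw [numProd_eq]
  let A : Finset σ → Finset (σ → ℕ) := fun S =>
    Fintype.piFinset fun i => if i ∈ S then range (n + 1) else range D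
  have hsub : ex '' (std F x ∩ {m | dg m ≤ n}) ⊆
      ((univ.filter fun S : Finset σ => S.card ≤ t).biUnion A : Finset (σ → ℕ)) := by
    rintro _ ⟨u, ⟨hu, hun⟩, rfl⟩
    rw [Finset.mem_coe, Finset.mem_biUnion]
    refine ⟨univ.filter fun i => D ≤ ex u i, ?_, ?_⟩
    · rw [Finset.mem_filter]
      refine ⟨Finset.mem_univ _, ?_⟩
      by_contra hcon
      push Not at hcon
      obtain ⟨s, hs, hcard⟩ := Finset.exists_subset_card_eq hcon
      apply hm s hcard
      refine std_of_le hu fun i => ?_
      by_cases hi : i ∈ s
      · exact (hD s i).trans (Finset.mem_filter.1 (hs hi)).2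
      · rw [hm' s hcard i hi]; exact Nat.zero_le _
    · rw [Fintype.mem_piFinset]
      intro i
      split_ifs with hi
      · rw [Finset.mem_range]
        have h1 : ex u i ≤ dg u :=
          Finset.single_le_sum (f := fun i => ex u i) (fun _ _ => Nat.zero_le _) (Finset.mem_univ i)
        have h2 : dg u ≤ n := hun
        omega
      · rw [Finset.mem_range]
        by_contra hcon
        push Not at hcon
        exact hi (Finset.mem_filter.2 ⟨Finset.mem_univ i, hcon⟩)
  have hinj : Function.Injective (ex : DegLex (σ →₀ ℕ) → σ → ℕ) := fun _ _ => ex_inj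
  rw [← Set.ncard_image_of_injective _ hinj]
  refine (Set.ncard_le_ncard hsub (Finset.finite_toSet _)).trans ?_
  rw [Set.ncard_coe_finset]
  refine Finset.card_biUnion_le.trans ?_
  have hA : ∀ S ∈ univ.filter (fun S : Finset σ => S.card ≤ t), (A S).card ≤
      D ^ Fintype.card σ * (n + 1) ^ t := by
    intro S hS
    rw [Fintype.card_piFinset]
    have h1 : ∀ i, (if i ∈ S then range (n + 1) else range D).card ≤
        D * (if i ∈ S then n + 1 else 1) := by
      intro i
      split_ifs
      · rw [Finset.card_range]; exact Nat.le_mul_of_pos_left _ (by omega)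
      · rw [Finset.card_range, mul_one]
    refine (Finset.prod_le_prod' fun i _ => h1 i).trans ?_
    rw [Finset.prod_mul_distrib, Finset.prod_const, Finset.card_univ, Finset.prod_ite_mem,
      Finset.univ_inter, Finset.prod_const]
    exact Nat.mul_le_mul_left _ (Nat.pow_le_pow_right (by omega) (Finset.mem_filter.1 hS).2)
  refine (Finset.sum_le_card_nsmul _ _ _ hA).trans ?_
  rw [smul_eq_mul, ← mul_assoc]
  apply Nat.mul_le_mul_right
  apply Nat.mul_le_mul_right
  refine (Finset.card_filter_le _ _).trans ?_
  rw [Finset.card_univ, Fintype.card_finset]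

end Upper

/-- The upper bound. -/
lemma upper {F σ B : Type*} [Fintype σ] [Field F] [CommRing B] [Algebra F B]
    {x : σ → B} {t : ℕ} (h : ∀ s : Finset σ, s.card = t + 1 →
    ¬ AlgebraicIndependent F fun i : s => x i) :
    ∃ C, ∀ n, numProd F x n ≤ C * (n + 1) ^ t := by
  classical
  letI : LinearOrder σ := LinearOrder.lift' (Fintype.equivFin σ) (Fintype.equivFin σ).injective
  exact upper_aux h

end Pool.Agent.U226.HF
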