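import Pool.Agent.U226.HF.MDefs
import Pool.Agent.U226.HF.Torsor
import Pool.Agent.U226.HF.Tr

/-!
# The index law for the torsor of periods
-/

set_option autoImplicit false

open Filter Topology MvPolynomial Finset

open scoped ENNReal

namespace Pool.Agent.U226.HF

instance : IsAlgClosed Qbar := (algebraicClosure.isAlgClosure ℚ ℂ).isAlgClosed

variable {N : ℕ} {S : Set (TensorPair Qbar N)} {c : Fin N × Fin N → ℂ}

lemma twoPiI_ne : (2 * Real.pi * Complex.I : ℂ) ≠ 0 := Complex.two_pi_I_ne_zero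

lemma IsPeriodMatrix.mem (h : IsPeriodMatrix S c) : c ∈ torsor S ℂ :=
  ⟨h.1, _, twoPiI_ne, h.2⟩

lemma entries_eq (T : Set (Fin N × Fin N → ℂ)) : entries T = coord T := rfl

lemma torsorIdeal_eq : torsorIdeal S = van Qbar (torsor S ℂ) := rfl

/-- the bound for the share -/
lemma share_bound {T : Set (Fin N × Fin N → ℂ)} {d n : ℕ}
    (h : 2 * numProd Qbar c n ≤ numProd Qbar (entries T) (n + d)) :
    (numProd Qbar c n : ℝ) ≤ 1 / 2 * (1 + (N : ℝ) ^ 2 / (n + 1)) ^ d * numProd Qbar (entries T) n := by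
  have h1 : (2 : ℝ) * numProd Qbar c n ≤ numProd Qbar (entries T) (n + d) := by exact_mod_cast h
  have h2 := numProd_add_real (F := Qbar) (entries T) n d
  have h3 : (Fintype.card (Fin N × Fin N) : ℝ) = (N : ℝ) ^ 2 := by
    rw [Fintype.card_prod, Fintype.card_fin]; push_cast; ring
  rw [h3] at h2
  linarith

/-- **The index law.** -/
theorem index_law (hc : IsPeriodMatrix S c) :
    ∃ K : ℕ∞, 1 ≤ K ∧
      Tendsto (fun n => (numProd Qbar (entries (torsor S ℂ)) n : ℝ≥0∞) / numProd Qbar c n) atTop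
        (𝓝 (K : ℝ≥0∞)) ∧
      (K = 1 ↔ PeriodConjecture S c) ∧
      (∀ n, numProd Qbar c n ≤ numProd Qbar (entries (torsor S ℂ)) n ∧
        (numProd Qbar (entries (torsor S ℂ)) n : ℕ∞) ≤ K * numProd Qbar c n) ∧
      (K ≠ ⊤ → (torsorIdeal S).minimalPrimes.encard = K) := by
  have H := homog hc.mem
  set Γ : Set (Fin N × Fin N → ℂ) :=
    {x | ∃ g, InGroup S g ∧ x = tr (g.map (algebraMap Qbar ℂ)) c} with hΓ
  refine ⟨(ids Qbar Γ).encard, ?_, H.tendsto, ?_, fun n => ⟨numProd_le hc.mem n, ?_⟩, ?_⟩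
  · rw [Set.one_le_encard_iff_nonempty]
    exact ⟨_, c, H.mem, rfl⟩
  · exact H.one_iff
  · rcases eq_or_ne (ids Qbar Γ).encard ⊤ with htop | htop
    · rw [htop, ENat.top_mul]
      · exact le_top
      · have := numProd_pos (F := Qbar) c n
        exact_mod_cast this.ne'
    · obtain ⟨M, hM⟩ := ENat.ne_top_iff_exists.1 htop
      rw [← hM]
      exact_mod_cast H.le_mul hM.symm n
  · intro hK
    rw [torsorIdeal_eq, H.comp (Set.encard_ne_top_iff.1 hK)]

/-- One relation. -/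
theorem one_relation (hc : IsPeriodMatrix S c) {d : ℕ} {P : MvPolynomial (Fin N × Fin N) Qbar}
    (hd : P.totalDegree ≤ d) (hP : aeval c P = 0) (hP' : ¬ Holds S P) (n : ℕ) :
    2 * numProd Qbar c n ≤ numProd Qbar (entries (torsor S ℂ)) (n + d) :=
  (homog hc.mem).two hd hP hP' n

end Pool.Agent.U226.HF
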