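import Pool.Agent.U226.HF.MDefs

/-!
# Transcendence degree and dimension: definitions
-/

set_option autoImplicit false

namespace Pool.Agent.U226.HF

/-- The dimension of the torsor: the largest number of matrix entries that are algebraically
independent over `ℚ̄` as functions on its complex points. -/
noncomputable def dimTorsor {N : ℕ} (S : Set (TensorPair Qbar N)) : ℕ :=
  numInd Qbar (entries (torsor S ℂ))

/-- The transcendence degree over `ℚ` of the field generated over `ℚ` by the entries of `c` is the
dimension of the torsor. -/
def TrdegIsDim {N : ℕ} (S : Set (TensorPair Qbar N)) (c : Fin N × Fin N → ℂ) : Prop :=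
  Algebra.trdeg ℚ (IntermediateField.adjoin ℚ (Set.range c)) = dimTorsor S

end Pool.Agent.U226.HF
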