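import Pool.Agent.U226.HF.Conn
import Pool.Agent.U226.HF.QDefs

/-!
# Transcendence degrees over `ℚ`
-/

set_option autoImplicit false

open MvPolynomial Finset

namespace Pool.Agent.U226.HF

variable {N : ℕ} {S : Set (TensorPair Qbar N)} {c : Fin N × Fin N → ℂ}

lemma numInd_rat : numInd ℚ c = numInd Qbar c := by
  have h : ∀ s : Finset (Fin N × Fin N), (AlgebraicIndependent ℚ fun i : s => c i) ↔
      AlgebraicIndependent Qbar fun i : s => c i := by
    intro s
    have : Algebra.IsAlgebraic ℚ Qbar := algebraicClosure.isAlgebraic ℚ ℂ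
    exact Algebra.IsAlgebraic.algebraicIndependent_iff ℚ Qbar
  rw [numInd, numInd]
  simp only [h]

lemma trdegIsDim_iff : TrdegIsDim S c ↔ WeakPeriodConjecture S c := by
  have h : Algebra.trdeg ℚ (IntermediateField.adjoin ℚ (Set.range c)) =
      ((numInd ℚ c : ℕ) : Cardinal) := trdeg_eq (F := ℚ) c
  rw [TrdegIsDim, weak_iff, h, Nat.cast_inj, numInd_rat]; rfl

end Pool.Agent.U226.HF
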