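import Pool.Agent.U226.HF.Defs

/-!
# Standard monomials
-/

set_option autoImplicit false

open Finset

namespace Pool.Agent.U226.HF

section Span

variable {F σ B : Type*} [Fintype σ] [Field F] [CommRing B] [Algebra F B] {x : σ → B}

lemma prodPow_add (x : σ → B) (m m' : σ → ℕ) :
    prodPow x (m + m') = prodPow x m * prodPow x m' := by
  simp only [prodPow, Pi.add_apply, pow_add, Finset.prod_mul_distrib]

lemma prodPow_zero (x : σ → B) : prodPow x 0 = 1 := by
  simp [prodPow]

lemma prodPow_mem {n : ℕ} {m : σ → ℕ} (h : ∑ i, m i ≤ n) : prodPow x m ∈ prodSpan F x n :=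
  Submodule.subset_span ⟨m, h, rfl⟩

lemma prodSpan_mono {n n' : ℕ} (h : n ≤ n') : prodSpan F x n ≤ prodSpan F x n' :=
  Submodule.span_mono fun _ ⟨m, hm, e⟩ => ⟨m, hm.trans h, e⟩

lemma one_mem (n : ℕ) : (1 : B) ∈ prodSpan F x n := by
  have := prodPow_mem (F := F) (x := x) (n := n) (m := 0) (by simp)
  rwa [prodPow_zero] at this

lemma mul_mem' {a b : ℕ} {u v : B} (hu : u ∈ prodSpan F x a) (hv : v ∈ prodSpan F x b) :
    u * v ∈ prodSpan F x (a + b) := by
  refine Submodule.span_induction₂ (p := fun u v _ _ => u * v ∈ prodSpan F x (a + b))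
    ?_ ?_ ?_ ?_ ?_ ?_ ?_ hu hv
  · rintro u v ⟨m, hm, rfl⟩ ⟨m', hm', rfl⟩
    rw [← prodPow_add]
    exact prodPow_mem (by simp only [Pi.add_apply, Finset.sum_add_distrib]; omega)
  · intro y _; rw [zero_mul]; exact Submodule.zero_mem _
  · intro y _; rw [mul_zero]; exact Submodule.zero_mem _
  · intro y z w _ _ _ h1 h2; rw [add_mul]; exact Submodule.add_mem _ h1 h2
  · intro y z w _ _ _ h1 h2; rw [mul_add]; exact Submodule.add_mem _ h1 h2
  · intro r y z _ _ h1; rw [smul_mul_assoc]; exact Submodule.smul_mem _ _ h1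
  · intro r y z _ _ h1; rw [mul_smul_comm]; exact Submodule.smul_mem _ _ h1

lemma coord_mem [DecidableEq σ] (i : σ) : x i ∈ prodSpan F x 1 := by
  have h := prodPow_mem (F := F) (x := x) (n := 1) (m := Pi.single i 1) (by simp)
  have h1 : prodPow x (Pi.single i 1) = x i := by
    rw [prodPow, Finset.prod_eq_single i]
    · simp
    · intro j _ hj; simp [Pi.single_eq_of_ne hj]
    · intro hi; exact absurd (Finset.mem_univ _) hi
  rwa [h1] at h

instance (n : ℕ) : Module.Finite F (prodSpan F x n) := by
  have hfin : {z | ∃ m : σ → ℕ, ∑ i, m i ≤ n ∧ z = prodPow x m}.Finite := by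
    have h1 : {m : σ → ℕ | ∑ i, m i ≤ n}.Finite := by
      refine (Set.Finite.pi (t := fun _ : σ => Set.Iic n) fun _ => Set.finite_Iic n).subset ?_
      intro m hm i _
      exact (Finset.single_le_sum (f := m) (fun j _ => Nat.zero_le _) (Finset.mem_univ i)).trans hm
    refine (h1.image (prodPow x)).subset ?_
    rintro z ⟨m, hm, rfl⟩
    exact ⟨m, hm, rfl⟩
  exact Module.Finite.iff_fg.2 (Submodule.fg_span hfin)

lemma numProd_mono {n n' : ℕ} (h : n ≤ n') : numProd F x n ≤ numProd F x n' :=
  Submodule.finrank_mono (prodSpan_mono h)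

/-- Products of elements of `prodSpan F x 1`. -/
lemma prodSpan_le [DecidableEq σ] {τ : Type*} [Fintype τ] {y : τ → B}
    (h : ∀ i, y i ∈ prodSpan F x 1) (n : ℕ) : prodSpan F y n ≤ prodSpan F x n := by
  classical
  have key : ∀ (n : ℕ) (m : τ → ℕ), ∑ i, m i = n → prodPow y m ∈ prodSpan F x n := by
    intro n
    induction n with
    | zero =>
      intro m hm
      have : m = 0 := by
        funext i
        have := Finset.sum_eq_zero_iff.1 hm i (Finset.mem_univ i)
        simpa using this
      rw [this, prodPow_zero]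
      exact one_mem _
    | succ n ih =>
      intro m hm
      have : ∃ i, m i ≠ 0 := by
        by_contra h0
        push Not at h0
        rw [Finset.sum_eq_zero (fun i _ => h0 i)] at hm
        omega
      obtain ⟨i, hi⟩ := this
      obtain ⟨m', e⟩ : ∃ m' : τ → ℕ, m = m' + Pi.single i 1 := by
        refine ⟨m - Pi.single i 1, ?_⟩
        funext j
        rcases eq_or_ne j i with rfl | hj
        · simp only [Pi.add_apply, Pi.sub_apply, Pi.single_eq_same]; omega
        · simp [Pi.single_eq_of_ne hj]
      have hs : ∑ j, m' j = n := by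
        rw [e] at hm
        simp only [Pi.add_apply, Finset.sum_add_distrib, Finset.sum_pi_single',
          Finset.mem_univ, if_true] at hm
        omega
      rw [e, prodPow_add]
      apply mul_mem' (ih _ hs)
      have h1 : prodPow y (Pi.single i 1) = y i := by
        rw [prodPow, Finset.prod_eq_single i]
        · simp
        · intro j _ hj; simp [Pi.single_eq_of_ne hj]
        · intro hi; exact absurd (Finset.mem_univ _) hi
      rw [h1]
      exact h i
  refine Submodule.span_le.2 ?_
  rintro z ⟨m, hm, rfl⟩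
  exact prodSpan_mono hm (key _ m rfl)

end Span

end Pool.Agent.U226.HF
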