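import Pool.Agent.U226.HF.Main

/-!
# The weak form of the period conjecture
-/

set_option autoImplicit false
set_option linter.unusedSectionVars false

open Filter Topology MvPolynomial Finset

open scoped ENNReal

namespace Pool.Agent.U226.HF

section Num

variable {F σ B : Type*} [Fintype σ] [Field F] [CommRing B] [Algebra F B] (x : σ → B)

lemma numInd_bdd : BddAbove {t | ∃ s : Finset σ, s.card = t ∧
    AlgebraicIndependent F fun i : s => x i} := by
  refine ⟨Fintype.card σ, ?_⟩
  rintro t ⟨s, rfl, -⟩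
  exact Finset.card_le_univ s

lemma numInd_le_of (s : Finset σ) (hs : AlgebraicIndependent F fun i : s => x i) :
    s.card ≤ numInd F x := le_csSup (numInd_bdd x) ⟨s, rfl, hs⟩

lemma numInd_exists [Nontrivial B] : ∃ s : Finset σ, s.card = numInd F x ∧
    AlgebraicIndependent F fun i : s => x i := by
  have h : numInd F x ∈ {t | ∃ s : Finset σ, s.card = t ∧
      AlgebraicIndependent F fun i : s => x i} := by
    refine Nat.sSup_mem ⟨0, ∅, rfl, ?_⟩ (numInd_bdd x)
    have : IsEmpty (∅ : Finset σ) := ⟨fun i => absurd i.2 (Finset.notMem_empty _)⟩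
    exact algebraicIndependent_empty_type_iff.2 (algebraMap F B).injective
  exact h

lemma numInd_upper [Nontrivial B] : ∃ C, ∀ n, numProd F x n ≤ C * (n + 1) ^ numInd F x := by
  apply upper
  intro s hs h
  have := numInd_le_of x s h
  omega

lemma numInd_lower [Nontrivial B] : ∃ C, ∀ n, (n + 1) ^ numInd F x ≤ C * numProd F x n := by
  obtain ⟨s, hs, h⟩ := numInd_exists (F := F) x
  refine ⟨s.card ^ s.card, fun n => ?_⟩
  rw [← hs]
  exact lower' x s h n

end Num

section Field

variable {F σ E : Type*} [Fintype σ] [Field F] [Field E] [Algebra F E] (x : σ → E)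

/-- The transcendence degree of a field is the largest number of algebraically independent
generators. -/
lemma trdeg_eq : Algebra.trdeg F (IntermediateField.adjoin F (Set.range x)) = numInd F x := by
  classical
  set K := IntermediateField.adjoin F (Set.range x) with hK
  let y : σ → K := fun i => ⟨x i, IntermediateField.subset_adjoin F _ ⟨i, rfl⟩⟩
  have hinj : Function.Injective (K.val : K →ₐ[F] E) := K.val.injective
  have hcomp : ∀ s : Finset σ, (AlgebraicIndependent F fun i : s => x i) ↔
      AlgebraicIndependent F fun i : s => y i := by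
    intro s
    exact AlgHom.algebraicIndependent_iff K.val hinj (x := fun i : s => y i)
  have hmap : (Algebra.adjoin F (Set.range y)).map K.val = Algebra.adjoin F (Set.range x) := by
    rw [AlgHom.map_adjoin, ← Set.range_comp]
    rfl
  have halg : Algebra.IsAlgebraic (Algebra.adjoin F (Set.range y)) K := by
    refine ⟨fun z => ?_⟩
    obtain ⟨r, hr, t, ht, hz⟩ := IntermediateField.mem_adjoin_iff_div.1 z.2
    rw [← hmap] at hr ht
    obtain ⟨r', hr', rfl⟩ := hr
    obtain ⟨t', ht', rfl⟩ := ht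
    by_cases h0 : t' = 0
    · have : z = 0 := by
        apply Subtype.ext
        rw [hz, h0]
        simp
      rw [this]
      exact isAlgebraic_zero
    · have hz' : t' * z = r' := by
        apply hinj
        rw [map_mul]
        have h1 : (K.val z : E) = K.val r' / K.val t' := hz
        rw [h1]
        have h2 : K.val t' ≠ 0 := fun h => h0 (hinj (h.trans (map_zero _).symm))
        field_simp
      refine ⟨Polynomial.C (⟨t', ht'⟩ : Algebra.adjoin F (Set.range y)) * Polynomial.X -
        Polynomial.C ⟨r', hr'⟩, ?_, ?_⟩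
      · intro h
        have h3 := congrArg (fun P => Polynomial.coeff P 1) h
        simp only [Polynomial.coeff_sub, Polynomial.coeff_C_mul, Polynomial.coeff_X_one, mul_one,
          Polynomial.coeff_C_succ, sub_zero, Polynomial.coeff_zero] at h3
        exact h0 (congrArg Subtype.val h3)
      · rw [map_sub, map_mul, Polynomial.aeval_C, Polynomial.aeval_C, Polynomial.aeval_X]
        change t' * z - r' = 0
        rw [hz', sub_self]
  obtain ⟨t, hts, ht⟩ := exists_isTranscendenceBasis_subset (R := F) (Set.range y)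
  have hfin : t.Finite := (Set.finite_range y).subset hts
  have : Fintype t := hfin.fintype
  have h1 : Algebra.trdeg F K = (Fintype.card t : ℕ) := by
    rw [← ht.cardinalMk_eq_trdeg, Cardinal.mk_fintype]
  rw [h1]
  congr 1
  apply le_antisymm
  · choose g hg using fun i : t => hts i.2
    have hginj : Function.Injective g := fun i j hij => by
      apply Subtype.ext
      rw [← hg i, ← hg j, hij]
    let s : Finset σ := univ.image g
    have hs : s.card = Fintype.card t := by
      rw [Finset.card_image_of_injective _ hginj, Finset.card_univ]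
    rw [← hs]
    apply numInd_le_of
    rw [hcomp]
    have h2 : AlgebraicIndependent F fun i : t => (i : K) := ht.1
    let e : s → t := fun i => (Finset.mem_image.1 i.2).choose
    have he : ∀ i : s, g (e i) = i := fun i => (Finset.mem_image.1 i.2).choose_spec.2
    have heinj : Function.Injective e := fun i j hij => by
      apply Subtype.ext
      rw [← he i, ← he j, hij]
    have h3 := h2.comp e heinj
    convert h3 using 1
    funext i
    rw [Function.comp_apply, ← hg (e i), he i]
  · obtain ⟨s, hs, h⟩ := numInd_exists (F := F) x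
    rw [← hs]
    have h2 := (hcomp s).1 h
    have h3 := h2.lift_cardinalMk_le_trdeg
    rw [h1] at h3
    simpa using h3

end Field

variable {N : ℕ} {S : Set (TensorPair Qbar N)} {c : Fin N × Fin N → ℂ}

lemma weak_iff : WeakPeriodConjecture S c ↔
    numInd Qbar c = numInd Qbar (entries (torsor S ℂ)) := by
  rw [WeakPeriodConjecture, trdeg_eq, Nat.cast_inj]

lemma ind_le (hc : c ∈ torsor S ℂ) : numInd Qbar c ≤ numInd Qbar (entries (torsor S ℂ)) := by
  obtain ⟨s, hs, h⟩ := numInd_exists (F := Qbar) c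
  rw [← hs]
  apply numInd_le_of
  let φ : (torsor S ℂ → ℂ) →ₐ[Qbar] ℂ := Pi.evalAlgHom Qbar (fun _ : torsor S ℂ => ℂ) ⟨c, hc⟩
  exact AlgebraicIndependent.of_comp φ h

/-- **The weak form.** -/
theorem weak_law (hc : IsPeriodMatrix S c) :
    (WeakPeriodConjecture S c ↔
      ∃ C : ℕ, ∀ n, numProd Qbar (entries (torsor S ℂ)) n ≤ C * numProd Qbar c n) ∧
    (WeakPeriodConjecture S c → ∃ K : ℕ, 1 ≤ K ∧ (torsorIdeal S).minimalPrimes.encard = K ∧
      (∀ n, numProd Qbar (entries (torsor S ℂ)) n ≤ K * numProd Qbar c n) ∧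
      Tendsto (fun n => (numProd Qbar (entries (torsor S ℂ)) n : ℝ) / numProd Qbar c n) atTop
        (𝓝 K)) ∧
    (¬ WeakPeriodConjecture S c → ∃ ε : ℝ, 0 < ε ∧ ∀ n : ℕ,
      ε * (n + 1) * numProd Qbar c n ≤ numProd Qbar (entries (torsor S ℂ)) n) := by
  have hTne : Nonempty (torsor S ℂ) := ⟨⟨c, hc.mem⟩⟩
  have hnt : Nontrivial (torsor S ℂ → ℂ) := Function.nontrivial
  set m : ℕ → ℕ := numProd Qbar (entries (torsor S ℂ)) with hm
  set p : ℕ → ℕ := numProd Qbar c with hp
  have hp0 : ∀ n, 0 < p n := fun n => numProd_pos (F := Qbar) c n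
  obtain ⟨K, hK1, hKt, hK2, hK3, hK4⟩ := index_law hc
  obtain ⟨C₁, hC₁⟩ := numInd_upper (F := Qbar) c
  obtain ⟨C₂, hC₂⟩ := numInd_lower (F := Qbar) c
  obtain ⟨C₃, hC₃⟩ := numInd_upper (F := Qbar) (entries (torsor S ℂ))
  obtain ⟨C₄, hC₄⟩ := numInd_lower (F := Qbar) (entries (torsor S ℂ))
  have hle := ind_le hc.mem
  have hgap : ¬ WeakPeriodConjecture S c → ∃ ε : ℝ, 0 < ε ∧ ∀ n : ℕ,
      ε * (n + 1) * p n ≤ m n := by
    intro hw
    rw [weak_iff] at hw
    have hlt : numInd Qbar c + 1 ≤ numInd Qbar (entries (torsor S ℂ)) :=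
      lt_of_le_of_ne hle hw
    have hC₁0 : 0 < C₁ := by
      rcases Nat.eq_zero_or_pos C₁ with h | h
      · have h1 := hC₁ 0
        rw [h, zero_mul] at h1
        exact absurd (hp0 0) (by change ¬ 0 < numProd Qbar c 0; omega)
      · exact h
    have hC₄0 : 0 < C₄ := by
      rcases Nat.eq_zero_or_pos C₄ with h | h
      · have h1 := hC₄ 0
        rw [h, zero_mul] at h1
        exact absurd h1 (by simp)
      · exact h
    refine ⟨1 / (C₁ * C₄), by positivity, fun n => ?_⟩
    have h1 : p n * (n + 1) ≤ C₁ * (C₄ * m n) := by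
      calc p n * (n + 1) ≤ C₁ * (n + 1) ^ numInd Qbar c * (n + 1) :=
            Nat.mul_le_mul_right _ (hC₁ n)
        _ = C₁ * (n + 1) ^ (numInd Qbar c + 1) := by rw [pow_succ]; ring
        _ ≤ C₁ * (n + 1) ^ (numInd Qbar (entries (torsor S ℂ))) :=
            Nat.mul_le_mul_left _ (Nat.pow_le_pow_right (by omega) hlt)
        _ ≤ C₁ * (C₄ * m n) := Nat.mul_le_mul_left _ (hC₄ n)
    have h2 : (p n : ℝ) * (n + 1) ≤ C₁ * (C₄ * m n) := by exact_mod_cast h1
    have h3 : (0 : ℝ) < (C₁ : ℝ) * C₄ := by positivity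
    rw [mul_assoc, one_div, inv_mul_le_iff₀ h3]
    linarith
  have hbdd : WeakPeriodConjecture S c → ∃ C : ℕ, ∀ n, m n ≤ C * p n := by
    intro hw
    rw [weak_iff] at hw
    refine ⟨C₃ * C₂, fun n => ?_⟩
    calc m n ≤ C₃ * (n + 1) ^ numInd Qbar (entries (torsor S ℂ)) := hC₃ n
      _ = C₃ * (n + 1) ^ numInd Qbar c := by rw [hw]
      _ ≤ C₃ * (C₂ * p n) := Nat.mul_le_mul_left _ (hC₂ n)
      _ = _ := by ring
  have hfin : (∃ C : ℕ, ∀ n, m n ≤ C * p n) → K ≠ ⊤ := by
    rintro ⟨C, hC⟩ rfl
    have h1 : ∀ n, (m n : ℝ≥0∞) / p n ≤ C := by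
      intro n
      apply ENNReal.div_le_of_le_mul
      exact_mod_cast hC n
    have h2 := le_of_tendsto' hKt h1
    rw [ENat.toENNReal_top, top_le_iff] at h2
    exact ENNReal.natCast_ne_top C h2
  refine ⟨⟨hbdd, fun hC => ?_⟩, fun hw => ?_, hgap⟩
  · by_contra hw
    obtain ⟨ε, hε, h⟩ := hgap hw
    obtain ⟨C, hC⟩ := hC
    obtain ⟨n, hn⟩ := exists_nat_gt ((C : ℝ) / ε)
    have h1 := h n
    have h2 : (m n : ℝ) ≤ C * p n := by exact_mod_cast hC n
    have h3 : (0 : ℝ) < p n := by exact_mod_cast hp0 n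
    have h4 : ε * (n + 1) ≤ C := by
      by_contra h5
      push Not at h5
      have := mul_lt_mul_of_pos_right h5 h3
      linarith
    rw [div_lt_iff₀ hε] at hn
    nlinarith
  · have hKf := hfin (hbdd hw)
    obtain ⟨M, hM⟩ := ENat.ne_top_iff_exists.1 hKf
    subst hM
    refine ⟨M, by exact_mod_cast hK1, hK4 hKf, fun n => by exact_mod_cast (hK3 n).2, ?_⟩
    have h1 : Tendsto (fun n => ((m n : ℝ≥0∞) / p n).toReal) atTop (𝓝 ((M : ℝ≥0∞).toReal)) := by
      have h2 : ((M : ℕ∞) : ℝ≥0∞) = (M : ℝ≥0∞) := rfl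
      rw [h2] at hKt
      exact (ENNReal.tendsto_toReal (ENNReal.natCast_ne_top M)).comp hKt
    rw [ENNReal.toReal_natCast] at h1
    refine h1.congr fun n => ?_
    rw [ENNReal.toReal_div, ENNReal.toReal_natCast, ENNReal.toReal_natCast]

end Pool.Agent.U226.HF
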